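import Mathlib

/-! The analytic Jacobian of the curve `y ^ 2 = F x`. -/

namespace Pool.Agent.P.MP_e5b57f_nt.HJ

open Polynomial

/-- A continuously differentiable arc from `P` to `Q` on the affine curve `y ^ 2 = F x`; on it
`dx / y = ρ dt`, and `u` is the vector of the integrals of the forms `x ^ l dx / y`, `l < g`. -/
def Arc (F : ℂ[X]) {g : ℕ} (P Q : ℂ × ℂ) (u : Fin g → ℂ) : Prop :=
  ∃ x y ρ : ℝ → ℂ, (x 0, y 0) = P ∧ (x 1, y 1) = Q ∧ ContinuousOn ρ (Set.Icc 0 1) ∧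
    (∀ t ∈ Set.Icc (0 : ℝ) 1, y t ^ 2 = F.eval (x t) ∧ HasDerivAt x (y t * ρ t) t ∧
      HasDerivAt y (F.derivative.eval (x t) / 2 * ρ t) t) ∧
    ∀ l : Fin g, u l = ∫ t in (0 : ℝ)..1, x t ^ (l : ℕ) * ρ t

/-- A chain of arcs from `P` to `Q`; `u` is the sum of their integrals. -/
def Way (F : ℂ[X]) {g : ℕ} (P Q : ℂ × ℂ) (u : Fin g → ℂ) : Prop :=
  Relation.ReflTransGen (fun a b : (ℂ × ℂ) × (Fin g → ℂ) => Arc F a.1 b.1 (b.2 - a.2)) (P, 0) (Q, u)

/-- The periods: the group generated by the integrals over closed chains. -/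
def Per (F : ℂ[X]) (g : ℕ) : AddSubgroup (Fin g → ℂ) :=
  AddSubgroup.closure {u | ∃ P, Way F P P u}

/-- The analytic Jacobian, with the quotient topology. -/
abbrev Jac (F : ℂ[X]) (g : ℕ) : Type := (Fin g → ℂ) ⧸ Per F g

/-- The classes of the real vectors. -/
def idComp (F : ℂ[X]) (g : ℕ) : Set (Jac F g) :=
  {w | ∃ v : Fin g → ℝ, w = QuotientAddGroup.mk fun l => (v l : ℂ)}

/-- The points `P` and `Q` are joined by a chain, and every point of the Jacobian with a multiple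
equal to a nonzero multiple of the class of such a chain has multiples whose closure contains the
classes of all real vectors. -/
def DenseSat (F : ℂ[X]) (g : ℕ) (P Q : ℂ × ℂ) : Prop :=
  (∃ u : Fin g → ℂ, Way F P Q u) ∧ ∀ u : Fin g → ℂ, Way F P Q u → ∀ (w : Jac F g) (k n : ℤ),
    n ≠ 0 → k • w = n • (QuotientAddGroup.mk u : Jac F g) →
      idComp F g ⊆ closure (AddSubgroup.zmultiples w : Set (Jac F g))

/-- The twist `y ^ 2 = f x / f b`. -/
noncomputable def twist (f : ℚ[X]) (b : ℕ) : ℂ[X] :=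
  (C (f.eval (b : ℚ))⁻¹ * f).map (algebraMap ℚ ℂ)

/-- The class of `(b, 1) - (b, -1)` on the twist has dense multiples. -/
def Good (f : ℚ[X]) (g b : ℕ) : Prop :=
  f.eval (b : ℚ) ≠ 0 ∧ DenseSat (twist f b) g (b, -1) (b, 1)

end Pool.Agent.P.MP_e5b57f_nt.HJ
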