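import Mathlib

/-! Elimination of unknown constants from multi-affine relations. -/

namespace Pool.Agent.P.MP_e5b57f_nt.HJ

open Finset Matrix

variable {J O : Type} [Fintype J] [DecidableEq J] [Fintype O] [DecidableEq O]

lemma det_exp (A : J → O → J → ℚ) : ∃ c : (J → O) → ℚ, ∀ t : J → O → ℝ,
    (Matrix.of fun j k => ∑ o, t j o * A j o k).det = ∑ σ, c σ • ∏ j, t j (σ j) := by
  refine ⟨fun σ => ∑ π : Equiv.Perm J, ((Equiv.Perm.sign π : ℤ) : ℚ) * ∏ j, A j (σ j) (π j),
    fun t => ?_⟩
  rw [← det_transpose, det_apply']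
  simp only [transpose_apply, of_apply, prod_univ_sum, Fintype.piFinset_univ, mul_sum,
    Rat.smul_def, Rat.cast_sum, sum_mul]
  rw [sum_comm]
  refine sum_congr rfl fun σ _ => sum_congr rfl fun π _ => ?_
  rw [prod_mul_distrib]
  push_cast
  ring

lemma elim0 (T : J → O → ℝ) (hT : LinearIndependent ℚ fun σ : J → O => ∏ j, T j (σ j)) (o0 : O)
    (h1 : ∀ j, T j o0 = 1) (A : J → O → J → ℚ) (z : J → ℝ) (hz : z ≠ 0)
    (h : ∀ j, ∑ k, (∑ o, T j o * A j o k) * z k = 0) : ∃ j, ∀ o, ∑ k, A j o k * z k = 0 := by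
  classical
  set M : Finset J → (J → J → ℚ) → Matrix J J ℝ := fun S B =>
    Matrix.of fun j k => if j ∈ S then ∑ o, T j o * A j o k else B j k with hM
  obtain ⟨S, hS, hm⟩ := exists_max_image (univ.filter fun S => ∃ B, (M S B).det ≠ 0) card
    ⟨∅, mem_filter.2 ⟨mem_univ _, fun j k => if j = k then 1 else 0, by
      have : M ∅ (fun j k => if j = k then 1 else 0) = 1 := by
        ext j k
        by_cases e : j = k <;> simp [hM, e, one_apply]
      simp [this]⟩⟩
  obtain ⟨B, hB⟩ := (mem_filter.1 hS).2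
  have r0 : ∀ j ∈ S, (M S B *ᵥ z) j = 0 := fun j hj => by
    simpa [hM, mulVec, dotProduct, hj] using h j
  obtain ⟨j0, hj⟩ : ∃ j, j ∉ S := by
    by_contra k
    push Not at k
    exact hB (exists_mulVec_eq_zero_iff.1 ⟨z, hz, funext fun j => r0 j (k j)⟩)
  refine ⟨j0, fun o => by_contra fun ha => ?_⟩
  obtain ⟨p, hp, hc⟩ : ∃ p, p ∉ S ∧ ((M S B).updateRow p fun k => A j0 o k).det ≠ 0 := by
    by_contra k
    push Not at k
    have := congrArg (· ⬝ᵥ z) (mulVec_cramer (M S B)ᵀ fun k => A j0 o k)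
    simp only [mulVec_transpose, ← dotProduct_mulVec, det_transpose, smul_dotProduct] at this
    rw [dotProduct, sum_eq_zero fun i _ => ?_] at this
    · exact mul_ne_zero hB ha this.symm
    · by_cases e : i ∈ S
      · rw [r0 i e, mul_zero]
      · rw [cramer_transpose_apply, k i e, zero_mul]
  set B' : J → J → ℚ := fun j => if j = j0 then A j0 o else if j = p then B j0 else B j with hB'
  obtain ⟨c, hc'⟩ := det_exp fun j o' => if j ∈ insert j0 S then A j o' else
    if o' = o0 then B' j else 0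
  have e1 : (M (insert j0 S) B').det = 0 := by
    by_contra k
    have := hm _ (mem_filter.2 ⟨mem_univ _, _, k⟩)
    rw [card_insert_of_notMem hj] at this
    omega
  have e2 : ∀ σ, c σ = 0 := Fintype.linearIndependent_iff.1 hT c (by
    rw [← hc', ← e1]
    congr 1
    ext j k
    simp only [hM, of_apply]
    split_ifs
    · rfl
    · simp [apply_ite (fun v : J → ℚ => (v k : ℝ)), h1])
  have e3 := hc' (Function.update T j0 (Pi.single o 1))
  simp only [e2, zero_smul, sum_const_zero] at e3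
  have e4 := det_permute (Equiv.swap p j0) ((M S B).updateRow p fun k => A j0 o k)
  refine mul_ne_zero (by simp) hc (e4.symm.trans (Eq.trans ?_ e3))
  congr 1
  ext j k
  simp only [submatrix_apply, id, of_apply]
  by_cases a1 : j = j0
  · subst a1
    simp [Pi.single_apply]
  rw [Function.update_of_ne a1]
  by_cases a2 : j = p
  · subst a2
    simp [updateRow_ne (Ne.symm a1), hM, hj, a1, hp, hB',
      apply_ite (fun v : J → ℚ => (v k : ℝ)), h1]
  · rw [Equiv.swap_apply_of_ne_of_ne a2 a1, updateRow_ne a2]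
    by_cases a3 : j ∈ S
    · simp [hM, a3]
    · simp [hM, a1, a2, a3, hB', apply_ite (fun v : J → ℚ => (v k : ℝ)), h1]

/-- too many integer relations are impossible -/
lemma elim {g : ℕ} (hJ : Fintype.card J = g ^ 2 + g + 1) (U : J → Fin g → ℝ)
    (hT : LinearIndependent ℚ fun σ : J → Option (Fin g) => ∏ j, (σ j).elim 1 (U j))
    (W : Fin g → Fin g → ℝ) (w : Fin g → ℝ) (a : J → Fin g → ℤ) (a0 : J → ℤ)
    (h : ∀ j, ∑ i, a j i * (w i + ∑ l, W i l * U j l) = a0 j) :
    ∃ j, ∀ l, ∑ i, a j i * W i l = 0 := by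
  obtain ⟨e⟩ : Nonempty (J ≃ Option (Fin g × Option (Fin g))) :=
    Fintype.card_eq.1 (by simp [hJ]; ring)
  set A : J → Option (Fin g) → Option (Fin g × Option (Fin g)) → ℚ := fun j o k =>
    k.elim (if o = none then a0 j else 0) fun k => if o = k.2 then a j k.1 else 0 with hA
  set z : Option (Fin g × Option (Fin g)) → ℝ := fun k =>
    k.elim (-1) fun k => k.2.elim (w k.1) (W k.1) with hz
  obtain ⟨j, hj⟩ := elim0 (O := Option (Fin g)) (fun j o => o.elim 1 (U j)) hT none (fun _ => rfl)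
    (fun j o k => A j o (e k)) (fun k => z (e k))
    (fun k => by simpa [hz] using congrFun k (e.symm none)) fun j => by
      rw [Equiv.sum_comp e fun k => (∑ o, o.elim 1 (U j) * A j o k) * z k, ← sub_eq_zero.2 (h j)]
      simp [hA, hz, Fintype.sum_prod_type, apply_ite (fun v : ℚ => (v : ℝ)), mul_add, mul_sum,
        sum_add_distrib]
      simp only [mul_comm, mul_left_comm]
      ring_nf
  refine ⟨j, fun l => ?_⟩
  have := hj (some l)
  rw [Equiv.sum_comp e fun k => A j (some l) k * z k] at this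
  simpa [hA, hz, Fintype.sum_prod_type, apply_ite (fun v : ℚ => (v : ℝ))] using this

end Pool.Agent.P.MP_e5b57f_nt.HJ
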