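import Pool.Agent.P.MP_e5b57f_nt.HJ.MR

/-! Independence of the products of abelian integrals at shifted arguments. -/

namespace Pool.Agent.P.MP_e5b57f_nt.HJ

open Polynomial Finset Function
open scoped PowerSeries

lemma dd_prod {J : Type} [DecidableEq J] (s : Finset J) (u : J → ℂ⟦X⟧) :
    dd (∏ j ∈ s, u j) = ∑ j ∈ s, (∏ k ∈ s.erase j, u k) * dd (u j) := by
  induction s using Finset.induction_on with
  | empty => simp [dd]
  | insert a s ha ih =>
    rw [prod_insert ha, sum_insert ha, erase_insert ha, dd_mul, ih, mul_comm, mul_sum]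
    congr 1
    refine sum_congr rfl fun j hj => ?_
    rw [erase_insert_of_ne (by rintro rfl; exact ha hj),
      prod_insert fun h => ha (mem_of_mem_erase h), mul_assoc]

lemma upd_sum {J A β : Type} [Fintype J] [DecidableEq J] [AddCommMonoid β] (F : J → A → β)
    (i : J → A) (j : J) (b : A) :
    ∑ k, F k (update i j b k) + F j (i j) = ∑ k, F k (i k) + F j b := by
  rw [← add_sum_erase _ _ (mem_univ j), ← add_sum_erase _ _ (mem_univ j), update_self,
    sum_congr rfl fun k hk => by rw [update_of_ne (ne_of_mem_erase hk)]]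
  abel

variable {J : Type} [Fintype J] [LinearOrder J] {g m : ℕ} {N : J → ℂ[X]} {E : J → ℂ⟦X⟧}
  {G : J → Fin g → ℂ⟦X⟧} {P : J → Fin g → ℂ[X]}

/-- square roots and primitives -/
structure Dat (m : ℕ) (N : J → ℂ[X]) (E : J → ℂ⟦X⟧) (G : J → Fin g → ℂ⟦X⟧)
    (P : J → Fin g → ℂ[X]) : Prop where
  m1 : 1 ≤ m
  m2 : m ≤ 2
  sq : ∀ j, Sq (N j)
  E2 : ∀ j, E j ^ 2 = N j
  de : ∀ j l, N j * (m * G j l + 2 * (X : ℂ[X]) * dd (G j l)) = 2 * P j l * E j
  dg : ∀ j l, (P j l).natDegree + 2 ≤ (N j).natDegree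
  ind : ∀ j (c : Fin g → ℂ), ∑ l, C (c l) * P j l = 0 → c = 0
  sep : ∀ j, ∃ τ, (N j).eval τ = 0 ∧ ∀ j', j < j' → (N j').eval τ ≠ 0

abbrev Ix (g : ℕ) := Bool × Option (Fin g)

noncomputable def mm (E : ℂ⟦X⟧) (G : Fin g → ℂ⟦X⟧) (a : Ix g) : ℂ⟦X⟧ :=
  (bif a.1 then E else 1) * a.2.elim 1 G

def dg1 (a : Ix g) : ℕ := a.2.elim 0 fun _ => 1

noncomputable def Nh (N : J → ℂ[X]) (j : J) : ℂ[X] := ∏ k ∈ univ.erase j, N k

noncomputable def nb (N : ℂ[X]) (a : Ix g) : ℂ[X] := bif a.1 then N else 1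

noncomputable def La (N : J → ℂ[X]) (i : J → Ix g) : ℂ[X] := ∑ j, Nh N j * derivative (nb (N j) (i j))

noncomputable def mu1 (N : ℂ[X]) (P : Fin g → ℂ[X]) (a : Ix g) : ℂ[X] :=
  a.2.elim 0 fun l => 2 * P l * nb N a

lemma Nh_mul (j : J) : N j * Nh N j = ∏ k, N k := mul_prod_erase _ _ (mem_univ j)

lemma La_spec (i : J → Ix g) : (∏ k, N k) * derivative (∏ j, nb (N j) (i j)) =
    La N i * ∏ j, nb (N j) (i j) := by
  rw [derivative_prod_finset, mul_sum, La, sum_mul]
  refine sum_congr rfl fun j _ => ?_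
  rw [← Nh_mul j, ← mul_prod_erase _ _ (mem_univ j)]
  unfold nb
  cases (i j).1
  · simp
  · simp only [cond_true]
    ring

namespace Dat

variable (D : Dat m N E G P)
include D

lemma ne (j : J) : N j ≠ 0 := fun e => by simpa [e] using (D.sq j).1

lemma nb_ne (j : J) (a : Ix g) : nb (N j) a ≠ 0 := by
  unfold nb
  cases a.1
  · simp
  · exact D.ne j

lemma loc (j : J) (a : Ix g) : 2 * (X : ℂ[X]) * N j * dd (mm (E j) (G j) a) =
    ((X * derivative (nb (N j) a) - ((m * dg1 a : ℕ) : ℂ[X]) * N j : ℂ[X]) : ℂ⟦X⟧) * mm (E j) (G j) a +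
      mu1 (N j) (P j) a * mm (E j) (G j) (!a.1, none) := by
  have h1 := congrArg dd (D.E2 j)
  rw [pow_two, dd_mul, dd, dd, PowerSeries.derivative_coe, ← dd] at h1
  have h2 := D.E2 j
  have c2 : ((2 : ℂ[X]) : ℂ⟦X⟧) = 2 := map_ofNat (coeToPowerSeries.ringHom (R := ℂ)) 2
  have cm : ((m : ℂ[X]) : ℂ⟦X⟧) = m := map_natCast (coeToPowerSeries.ringHom (R := ℂ)) m
  obtain ⟨_ | _, _ | l⟩ := a
  · simp [mm, nb, dg1, mu1, dd]
  · have h3 := D.de j l
    simp [mm, nb, dg1, mu1, c2, cm] at h3 ⊢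
    linear_combination h3
  · simp [mm, nb, dg1, mu1]
    linear_combination PowerSeries.X * E j * h1 - 2 * PowerSeries.X * dd (E j) * h2
  · have h3 := D.de j l
    simp [mm, nb, dg1, mu1, c2, cm] at h3 ⊢
    linear_combination PowerSeries.X * E j * G j l * h1 -
      2 * PowerSeries.X * dd (E j) * G j l * h2 + E j * h3 + 2 * (P j l : ℂ⟦X⟧) * h2

lemma glob (i : J → Ix g) :
    ((2 * X * ∏ k, N k : ℂ[X]) : ℂ⟦X⟧) * dd (∏ j, mm (E j) (G j) (i j)) =
      ((X * La N i - ((m * ∑ j, dg1 (i j) : ℕ) : ℂ[X]) * ∏ k, N k : ℂ[X]) : ℂ⟦X⟧) *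
        ∏ j, mm (E j) (G j) (i j) + ∑ j, ((Nh N j * mu1 (N j) (P j) (i j) : ℂ[X]) : ℂ⟦X⟧) *
          ∏ k, mm (E k) (G k) (update i j (!(i j).1, none) k) := by
  have e : X * La N i - ((m * ∑ j, dg1 (i j) : ℕ) : ℂ[X]) * ∏ k, N k =
      ∑ j, Nh N j * (X * derivative (nb (N j) (i j)) - ((m * dg1 (i j) : ℕ) : ℂ[X]) * N j) := by
    rw [La, mul_sum, mul_sum, Nat.cast_sum, sum_mul, ← sum_sub_distrib]
    refine sum_congr rfl fun j _ => ?_
    rw [← Nh_mul j]
    ring
  have c2 : ((2 : ℂ[X]) : ℂ⟦X⟧) = 2 := map_ofNat (coeToPowerSeries.ringHom (R := ℂ)) 2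
  rw [e, dd_prod, coe_sum, mul_sum, sum_mul, ← sum_add_distrib]
  refine sum_congr rfl fun j _ => ?_
  have h := D.loc j (i j)
  rw [← Nh_mul j, ← mul_prod_erase _ _ (mem_univ j), ← mul_prod_erase _ _ (mem_univ j), update_self,
    prod_congr rfl (f := fun k => mm (E k) (G k) (update i j (!(i j).1, none) k))
      (g := fun k => mm (E k) (G k) (i k)) fun k hk => by rw [update_of_ne (ne_of_mem_erase hk)]]
  simp only [Polynomial.coe_mul, c2]
  linear_combination ((Nh N j : ℂ⟦X⟧) * ∏ k ∈ univ.erase j, mm (E k) (G k) (i k)) * h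

lemma same {i i0 : J → Ix g} {p q : ℂ[X]} (hp : p ≠ 0) (hq : q ≠ 0)
    (h : q * (2 * (∏ k, N k) * derivative p + La N i * p) =
      (2 * (∏ k, N k) * derivative q + La N i0 * q) * p) (j : J) : (i j).1 = (i0 j).1 := by
  by_contra hj
  obtain ⟨j, hj, hm⟩ := exists_min_image (univ.filter fun j => (i j).1 ≠ (i0 j).1) id ⟨j, by simpa⟩
  simp only [mem_filter, mem_univ, true_and, id] at hj hm
  obtain ⟨τ, h1, h2⟩ := D.sep j
  have n1 : ∀ i : J → Ix g, ∏ j, nb (N j) (i j) ≠ 0 := fun i =>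
    prod_ne_zero_iff.2 fun j _ => D.nb_ne j _
  have n2 : ∀ (p : ℂ[X]) (i : J → Ix g), p ≠ 0 → p * p * ∏ j, nb (N j) (i j) ≠ 0 :=
    fun p i h => mul_ne_zero (mul_ne_zero h h) (n1 i)
  have w := wr_mult (n2 p i hp) (n2 q i0 hq) (mul_left_cancel₀
    (prod_ne_zero_iff.2 fun j _ => D.ne j : ∏ k, N k ≠ 0) (by
      simp only [derivative_mul]
      linear_combination p * p * q * q * (∏ j, nb (N j) (i j)) * La_spec (N := N) i0 -
        p * p * q * q * (∏ j, nb (N j) (i0 j)) * La_spec (N := N) i -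
        p * q * (∏ j, nb (N j) (i j)) * (∏ j, nb (N j) (i0 j)) * h)) τ
  have r : ∀ (i : J → Ix g) (s : Finset J), rootMultiplicity τ (∏ j ∈ s, nb (N j) (i j)) =
      ∑ j ∈ s, rootMultiplicity τ (nb (N j) (i j)) := fun i s => by
    induction s using Finset.induction_on with
    | empty => simp
    | insert a s ha ih =>
      rw [prod_insert ha, sum_insert ha, rootMultiplicity_mul (mul_ne_zero (D.nb_ne _ _)
        (prod_ne_zero_iff.2 fun j _ => D.nb_ne j _)), ih]
  rw [rootMultiplicity_mul (n2 p i hp), rootMultiplicity_mul (n2 q i0 hq),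
    rootMultiplicity_mul (mul_ne_zero hp hp), rootMultiplicity_mul (mul_ne_zero hq hq), r, r,
    ← add_sum_erase _ _ (mem_univ j), ← add_sum_erase _ _ (mem_univ j),
    sum_congr rfl (g := fun k => rootMultiplicity τ (nb (N k) (i0 k))) fun k hk => ?_] at w
  · have o : rootMultiplicity τ (N j) = 1 := le_antisymm (not_lt.1 fun k => (D.sq j).2 τ h1
      ((one_lt_rootMultiplicity_iff_isRoot (D.ne j)).1 k).2)
      ((rootMultiplicity_pos (D.ne j)).2 h1)
    have o1 : rootMultiplicity τ (1 : ℂ[X]) = 0 := rootMultiplicity_eq_zero (by simp)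
    rw [nb, nb] at w
    revert w hj
    cases (i j).1 <;> cases (i0 j).1 <;>
      simp only [cond_true, cond_false, o, o1, ne_eq, not_true, false_imp_iff] <;> omega
  · rcases (ne_of_mem_erase hk).lt_or_gt with k1 | k1
    · rw [nb, nb, not_not.1 fun e => k1.not_ge (hm k e)]
    · have o : rootMultiplicity τ (N k) = 0 := rootMultiplicity_eq_zero (h2 k k1)
      have o1 : rootMultiplicity τ (1 : ℂ[X]) = 0 := rootMultiplicity_eq_zero (by simp)
      unfold nb
      cases (i k).1 <;> cases (i0 k).1 <;> simp only [cond_true, cond_false, o, o1]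

theorem indep (q : (J → Ix g) → ℂ[X]) (hr : ∑ i, q i * ∏ j, mm (E j) (G j) (i j) = 0) :
    q = 0 := by
  by_contra hq
  have hφ : ∀ x : (J → Ix g) × J, Nh N x.2 * mu1 (N x.2) (P x.2) (x.1 x.2) ≠ 0 →
      (∃ l, (x.1 x.2).2 = some l) ∧
        ∑ j, dg1 (update x.1 x.2 (!(x.1 x.2).1, none) j) + 1 = ∑ j, dg1 (x.1 j) := fun x h => by
    have := upd_sum (fun _ => dg1) x.1 x.2 (!(x.1 x.2).1, none)
    cases e : (x.1 x.2).2 with
    | none => simp [mu1, e] at h
    | some l => exact ⟨⟨l, rfl⟩, by simpa [dg1, e] using this⟩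
  obtain ⟨p, i0, pr, hi, hm, key⟩ := min_rel _ _ (fun i => ∑ j, dg1 (i j)) _
    (fun x : (J → Ix g) × J => Nh N x.2 * mu1 (N x.2) (P x.2) (x.1 x.2))
    (fun x => update x.1 x.2 (!(x.1 x.2).1, none)) D.glob
    (fun x h => by have := (hφ x h).2; omega) hq hr
  have top : ∀ i, ∑ j, dg1 (i j) = ∑ j, dg1 (i0 j) → p i ≠ 0 →
      (∀ j, (i j).1 = (i0 j).1) ∧ ∃ c, p i = C c * p i0 := fun i e h => by
    have k := key i
    rw [sum_eq_zero (s := (univ : Finset ((J → Ix g) × J))) fun x _ => ?_, e] at k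
    · have k2 : p i0 * (2 * (∏ k, N k) * derivative (p i) + La N i * p i) =
          (2 * (∏ k, N k) * derivative (p i0) + La N i0 * p i0) * p i :=
        mul_left_cancel₀ X_ne_zero (by linear_combination k)
      have s := D.same h hi k2
      refine ⟨s, wr_const hi (mul_left_cancel₀ (mul_ne_zero two_ne_zero
        (prod_ne_zero_iff.2 fun j _ => D.ne j : ∏ k, N k ≠ 0)) ?_)⟩
      have : La N i = La N i0 := sum_congr rfl fun j _ => by rw [nb, nb, s]
      rw [this] at k2
      linear_combination -k2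
    · split_ifs with e'
      · by_contra h
        have h1 := (hφ x (left_ne_zero_of_mul h)).2
        have h2 := hm _ (right_ne_zero_of_mul h)
        rw [e'] at h1
        omega
      · rfl
  by_cases h0 : ∀ j, (i0 j).2 = none
  · have z : ∑ j, dg1 (i0 j) = 0 := by simp [dg1, h0]
    rw [sum_eq_single i0 (fun i _ hne => ?_) (by simp)] at pr
    · refine mul_ne_zero (by exact_mod_cast hi) (prod_ne_zero_iff.2 fun j _ => ?_) pr
      have : E j ≠ 0 := fun e => D.ne j (by simpa [e] using (D.E2 j).symm)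
      unfold mm
      rw [h0]
      cases (i0 j).1 <;> simp [this]
    · by_contra h
      have h1 : p i ≠ 0 := by simpa using left_ne_zero_of_mul h
      have h2 := hm i h1
      refine hne (funext fun j => Prod.ext ((top i (by omega) h1).1 j) ?_)
      have := sum_eq_zero_iff.1 (by omega : ∑ j, dg1 (i j) = 0) j (mem_univ j)
      rw [h0]
      cases e : (i j).2 with
      | none => rfl
      | some l => simp [dg1, e] at this
  obtain ⟨j0, l0, hl⟩ : ∃ j l, (i0 j).2 = some l := by
    simpa [Option.ne_none_iff_exists'] using h0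
  have d1 : ∀ l, ∑ j, dg1 (update i0 j0 ((i0 j0).1, some l) j) = ∑ j, dg1 (i0 j) := fun l => by
    simpa [dg1, hl] using upd_sum (fun _ => dg1) i0 j0 ((i0 j0).1, some l)
  have d2 : ∑ j, dg1 (update i0 j0 (!(i0 j0).1, none) j) + 1 = ∑ j, dg1 (i0 j) := by
    simpa [dg1, hl] using upd_sum (fun _ => dg1) i0 j0 (!(i0 j0).1, none)
  have hc : ∀ l, ∃ c, p (update i0 j0 ((i0 j0).1, some l)) = C c * p i0 := fun l => by
    by_cases h : p (update i0 j0 ((i0 j0).1, some l)) = 0
    · exact ⟨0, by simp [h]⟩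
    · exact (top _ (d1 l) h).2
  choose c hc using hc
  have k := key (update i0 j0 (!(i0 j0).1, none))
  rw [← Fintype.sum_of_injective (fun l => (update i0 j0 ((i0 j0).1, some l), j0))
    (fun l l' e => by simpa using congrFun (congrArg Prod.fst e) j0)
    (fun l => Nh N j0 * (2 * nb (N j0) (i0 j0) * p i0) * (C (c l) * P j0 l)) _
    (fun x hx => ?_) fun l => by simp [hc, mu1, nb]; ring, ← mul_sum, ← d2] at k
  · have e := upd_sum (fun j a => Nh N j * derivative (nb (N j) a)) i0 j0 (!(i0 j0).1, none)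
    rw [← La, ← La] at e
    have z : ∑ l, C (c l) * P j0 l = 0 := by
      refine ode (a := p (update i0 j0 (!(i0 j0).1, none))) (T := p i0 * nb (N j0) (i0 j0))
        (D.sq j0) D.m1 D.m2 (mul_ne_zero hi (D.nb_ne _ _)) ?_ (mul_left_cancel₀ (a := Nh N j0)
          (prod_ne_zero_iff.2 fun j _ => D.ne j) ?_)
      · have := natDegree_sum_le_of_forall_le univ (fun l => C (c l) * P j0 l)
          (n := (N j0).natDegree - 2) fun l _ => (natDegree_C_mul_le _ _).trans
            (by have := D.dg j0 l; omega)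
        have := D.dg j0 l0
        omega
      · rw [← Nh_mul j0] at k
        push_cast at k
        unfold nb at *
        generalize p (update i0 j0 (!(i0 j0).1, none)) = r at *
        generalize La N (update i0 j0 (!(i0 j0).1, none)) = L at *
        revert k e
        cases (i0 j0).1 <;> simp only [cond_true, cond_false, Bool.not_true, Bool.not_false,
          derivative_mul, derivative_one] <;> intro e k
        · linear_combination k - X * p i0 * r * e
        · linear_combination N j0 * k - N j0 * X * p i0 * r * e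
    have := hc l0
    rw [← hl, Prod.mk.eta, update_eq_self, D.ind j0 c z] at this
    exact hi (by simpa using this)
  · split_ifs with e'
    · by_contra h
      obtain ⟨⟨l, h3⟩, h1⟩ := hφ x (left_ne_zero_of_mul h)
      have h2 := right_ne_zero_of_mul h
      rw [e'] at h1
      have s := (top x.1 (by omega) h2).1
      obtain ⟨i, j⟩ := x
      obtain rfl : j = j0 := by
        by_contra hne
        have := congrFun e' j0
        rw [update_of_ne (Ne.symm hne), update_self] at this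
        have := s j0
        simp_all
      refine hx ⟨l, Prod.ext (funext fun j' => ?_) rfl⟩
      by_cases e : j' = j
      · subst e
        exact (update_self ..).trans (Prod.ext (s _).symm h3.symm)
      · simpa [update_of_ne e] using (congrFun e' j').symm
    · rfl

end Dat

end Pool.Agent.P.MP_e5b57f_nt.HJ
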