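import Pool.Agent.P.MP_e5b57f_nt.HJ.Defs

/-! Chains of arcs and charts. -/

namespace Pool.Agent.P.MP_e5b57f_nt.HJ

open Polynomial Set Filter Topology Relation

variable {F F' : ℂ[X]} {g : ℕ} {P Q R : ℂ × ℂ} {u v : Fin g → ℂ}

lemma Arc.symm (h : Arc F P Q u) : Arc F Q P (-u) := by
  obtain ⟨x, y, ρ, h0, h1, hc, hd, hu⟩ := h
  have m : ∀ t ∈ Icc (0 : ℝ) 1, 1 - t ∈ Icc (0 : ℝ) 1 := fun t ht =>
    ⟨by linarith [ht.2], by linarith [ht.1]⟩
  refine ⟨fun t => x (1 - t), fun t => y (1 - t), fun t => -ρ (1 - t), by simpa using h1,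
    by simpa using h0, (hc.comp (by fun_prop) m).neg, fun t ht => ?_, fun l => ?_⟩
  · obtain ⟨a, b, c⟩ := hd _ (m t ht)
    exact ⟨a, by simpa using b.comp_const_sub 1 t, by simpa using c.comp_const_sub 1 t⟩
  · have := intervalIntegral.integral_comp_sub_left (a := 0) (b := 1)
      (fun t => x t ^ (l : ℕ) * ρ t) 1
    simp only [mul_neg, intervalIntegral.integral_neg, this, Pi.neg_apply, hu l, sub_self, sub_zero]

lemma Arc.scale (h : Arc F P Q u) {c : ℂ} (hc : c ≠ 0) :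
    Arc (C (c ^ 2) * F) (P.1, c * P.2) (Q.1, c * Q.2) (c⁻¹ • u) := by
  obtain ⟨x, y, ρ, rfl, rfl, h, hd, hu⟩ := h
  refine ⟨x, fun t => c * y t, fun t => c⁻¹ * ρ t, rfl, rfl, continuousOn_const.mul h,
    fun t ht => ?_, fun l => ?_⟩
  · obtain ⟨a, b, d⟩ := hd t ht
    refine ⟨by simp [mul_pow, a], b.congr_deriv (by field_simp), (d.const_mul c).congr_deriv ?_⟩
    rw [derivative_C_mul, eval_mul, eval_C]
    field_simp
  · simp only [Pi.smul_apply, smul_eq_mul, hu l, ← intervalIntegral.integral_const_mul,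
      mul_left_comm]

lemma Arc.conj (h : Arc F P Q u) (hF : F.map (starRingEnd ℂ) = F) :
    Arc F (star P) (star Q) (star u) := by
  obtain ⟨x, y, ρ, rfl, rfl, h, hd, hu⟩ := h
  have e : ∀ z, F.eval (star z) = star (F.eval z) := fun z => by
    nth_rewrite 1 [← hF]
    exact eval_map_apply (starRingEnd ℂ) z
  have e' : ∀ z, F.derivative.eval (star z) = star (F.derivative.eval z) := fun z => by
    nth_rewrite 1 [← hF]
    rw [derivative_map]
    exact eval_map_apply (starRingEnd ℂ) z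
  refine ⟨fun t => star (x t), fun t => star (y t), fun t => star (ρ t), rfl, rfl, h.star,
    fun t ht => ?_, fun l => ?_⟩
  · obtain ⟨a, b, d⟩ := hd t ht
    exact ⟨by rw [e, ← a, star_pow], b.star.congr_deriv (by simp),
      d.star.congr_deriv (by rw [e']; simp)⟩
  · rw [Pi.star_apply, hu l, Complex.star_def, ← intervalIntegral.intervalIntegral_conj]
    simp

lemma Way.refl (P : ℂ × ℂ) : Way F P P (0 : Fin g → ℂ) := ReflTransGen.refl

lemma Arc.way (h : Arc F P Q u) : Way F P Q u := ReflTransGen.single (by simpa using h)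

lemma Way.map (α : ℂ × ℂ → ℂ × ℂ) (β : (Fin g → ℂ) →+ (Fin g → ℂ))
    (hα : ∀ P Q u, Arc F P Q u → Arc F' (α P) (α Q) (β u)) (h : Way F P Q u) :
    Way F' (α P) (α Q) (β u) := by
  have := ReflTransGen.lift (p := fun a b : (ℂ × ℂ) × (Fin g → ℂ) => Arc F' a.1 b.1 (b.2 - a.2))
    (fun a => (α a.1, β a.2)) (fun a b k => by
      simpa only [Function.onFun, map_sub] using hα _ _ _ k) _ _ h
  simpa only [Function.onFun, map_zero, Way] using this

lemma shift {a b : (ℂ × ℂ) × (Fin g → ℂ)}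
    (h : ReflTransGen (fun a b : (ℂ × ℂ) × (Fin g → ℂ) => Arc F a.1 b.1 (b.2 - a.2)) a b)
    (v : Fin g → ℂ) : ReflTransGen (fun a b : (ℂ × ℂ) × (Fin g → ℂ) => Arc F a.1 b.1 (b.2 - a.2))
      (a.1, v + a.2) (b.1, v + b.2) :=
  ReflTransGen.lift (p := fun a b : (ℂ × ℂ) × (Fin g → ℂ) => Arc F a.1 b.1 (b.2 - a.2))
    (fun a => (a.1, v + a.2)) (fun a b k => by simpa [Function.onFun] using k) _ _ h

lemma Way.trans (h : Way F P Q u) (k : Way F Q R v) : Way F P R (u + v) :=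
  ReflTransGen.trans h (by simpa using shift k u)

lemma Way.symm (h : Way F P Q u) : Way F Q P (-u) := by
  have : ∀ a b : (ℂ × ℂ) × (Fin g → ℂ), ReflTransGen (fun a b => Arc F a.1 b.1 (b.2 - a.2)) a b →
      ReflTransGen (fun a b => Arc F a.1 b.1 (b.2 - a.2)) b a := fun a b k => by
    induction k with
    | refl => exact .refl
    | tail _ e ih => exact .head (by simpa using e.symm) ih
  simpa [Way] using shift (this _ _ h) (-u)

lemma Way.sub_mem (h : Way F P Q u) (k : Way F P Q v) : u - v ∈ Per F g :=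
  AddSubgroup.subset_closure ⟨P, sub_eq_add_neg u v ▸ h.trans k.symm⟩

lemma Way.scale (h : Way F P Q u) {c : ℂ} (hc : c ≠ 0) :
    Way (C (c ^ 2) * F) (P.1, c * P.2) (Q.1, c * Q.2) (c⁻¹ • u) :=
  h.map (fun P => (P.1, c * P.2)) (DistribSMul.toAddMonoidHom _ c⁻¹) fun _ _ _ k => k.scale hc

lemma Way.neg (h : Way F P Q u) : Way F (P.1, -P.2) (Q.1, -Q.2) (-u) := by
  simpa using h.scale (c := -1) (by simp)

lemma Way.conj (h : Way F P Q u) (hF : F.map (starRingEnd ℂ) = F) :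
    Way F (star P) (star Q) (star u) :=
  h.map star (starAddEquiv (R := Fin g → ℂ)).toAddMonoidHom fun _ _ _ k => k.conj hF

lemma per_map (β : (Fin g → ℂ) →+ (Fin g → ℂ))
    (h : ∀ P u, Way F P P u → ∃ Q, Way F' Q Q (β u)) (hu : u ∈ Per F g) : β u ∈ Per F' g :=
  (AddSubgroup.closure_le ((Per F' g).comap β)).2
    (fun _ k => AddSubgroup.subset_closure (h _ _ k.choose_spec)) hu

/-- a holomorphic parametrisation with primitives of the forms -/
def Ch (F : ℂ[X]) (Ω : Set ℂ) (x y ρ : ℂ → ℂ) (p : ℂ → Fin g → ℂ) : Prop :=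
  ∀ s ∈ Ω, y s ^ 2 = F.eval (x s) ∧ HasDerivAt x (y s * ρ s) s ∧
    HasDerivAt y (F.derivative.eval (x s) / 2 * ρ s) s ∧ ContinuousAt ρ s ∧
      ∀ l : Fin g, HasDerivAt (fun s => p s l) (x s ^ (l : ℕ) * ρ s) s

lemma Ch.arc {Ω : Set ℂ} {x y ρ : ℂ → ℂ} {p : ℂ → Fin g → ℂ} (h : Ch F Ω x y ρ p) {σ σ' : ℝ → ℂ}
    (h1 : ∀ t ∈ Icc (0 : ℝ) 1, σ t ∈ Ω) (h2 : ∀ t, HasDerivAt σ (σ' t) t) (h3 : Continuous σ') :
    Way F (x (σ 0), y (σ 0)) (x (σ 1), y (σ 1)) (p (σ 1) - p (σ 0)) := by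
  have c : ContinuousOn (fun t => ρ (σ t) * σ' t) (Icc 0 1) := fun t ht =>
    (((h _ (h1 t ht)).2.2.2.1.comp (h2 t).continuousAt).mul h3.continuousAt).continuousWithinAt
  refine Arc.way ⟨fun t => x (σ t), fun t => y (σ t), fun t => ρ (σ t) * σ' t, rfl, rfl, c,
    fun t ht => ?_, fun l => ?_⟩
  · obtain ⟨a, b, d, -⟩ := h _ (h1 t ht)
    exact ⟨a, (b.comp t (h2 t)).congr_deriv (mul_assoc ..),
      (d.comp t (h2 t)).congr_deriv (mul_assoc ..)⟩
  · refine (intervalIntegral.integral_eq_sub_of_hasDerivAt (f := fun t => p (σ t) l)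
      (fun t ht => ?_) (ContinuousOn.intervalIntegrable ?_)).symm
    · rw [uIcc_of_le zero_le_one] at ht
      exact (((h _ (h1 t ht)).2.2.2.2 l).comp t (h2 t)).congr_deriv (mul_assoc ..)
    · rw [uIcc_of_le zero_le_one]
      exact (ContinuousOn.pow (fun t ht => ((h _ (h1 t ht)).2.1.continuousAt.comp
        (h2 t).continuousAt).continuousWithinAt) _).mul c

lemma Ch.seg {Ω : Set ℂ} {x y ρ : ℂ → ℂ} {p : ℂ → Fin g → ℂ} (h : Ch F Ω x y ρ p)
    (hΩ : Convex ℝ Ω) {a b : ℂ} (ha : a ∈ Ω) (hb : b ∈ Ω) :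
    Way F (x a, y a) (x b, y b) (p b - p a) := by
  have := h.arc (σ := fun t => a + t • (b - a)) (σ' := fun _ => b - a)
    (fun t ht => hΩ.add_smul_sub_mem ha hb ht)
    (fun t => by simpa using ((hasDerivAt_id t).smul_const (b - a)).const_add a) continuous_const
  simpa using this

/-- a chart around every point of the affine curve -/
lemma chart (hF : ∀ z, F.eval z = 0 → F.derivative.eval z ≠ 0) (g : ℕ) {P : ℂ × ℂ}
    (hP : P.2 ^ 2 = F.eval P.1) : ∃ (r : ℝ) (x y ρ : ℂ → ℂ) (p : ℂ → Fin g → ℂ) (σ : ℂ × ℂ → ℂ),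
      0 < r ∧ Continuous σ ∧ Ch F (Metric.ball (σ P) r) x y ρ p ∧
        (∀ s ∈ Metric.ball (σ P) r, ρ s ≠ 0) ∧
        ∀ᶠ Q in 𝓝 P, Q.2 ^ 2 = F.eval Q.1 → (x (σ Q), y (σ Q)) = Q := by
  obtain ⟨α, β, hab⟩ : ∃ α β : ℂ, α * P.2 + β * (F.derivative.eval P.1 / 2) = 1 := by
    by_cases h : P.2 = 0
    · have := hF P.1 (by rw [← hP, h]; simp)
      exact ⟨0, 2 / F.derivative.eval P.1, by field_simp; simp⟩
    · exact ⟨P.2⁻¹, 0, by simp [h]⟩
  set Φ : ℂ × ℂ → ℂ × ℂ := fun Q => (Q.2 ^ 2 - F.eval Q.1, α * Q.1 + β * Q.2) with hΦ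
  have aF : ∀ z, AnalyticAt ℂ (fun z => F.eval z) z := fun z => F.differentiable.analyticAt z
  have an : AnalyticAt ℂ Φ P := ((analyticAt_snd.pow 2).sub ((aF _).comp analyticAt_fst)).prod
    ((analyticAt_const.mul analyticAt_fst).add (analyticAt_const.mul analyticAt_snd))
  have f1 : HasFDerivAt Prod.fst (ContinuousLinearMap.fst ℂ ℂ ℂ) P := hasFDerivAt_fst
  have f2 : HasFDerivAt Prod.snd (ContinuousLinearMap.snd ℂ ℂ ℂ) P := hasFDerivAt_snd
  have hd : HasFDerivAt Φ _ P := ((f2.pow 2).sub ((F.hasDerivAt P.1).comp_hasFDerivAt P f1)).prodMk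
    ((f1.const_mul α).add (f2.const_mul β))
  obtain ⟨e, he⟩ : ∃ e : (ℂ × ℂ) ≃L[ℂ] (ℂ × ℂ), HasFDerivAt Φ (e : ℂ × ℂ →L[ℂ] ℂ × ℂ) P := by
    refine ⟨(LinearEquiv.ofInjectiveEndo (fderiv ℂ Φ P).toLinearMap
      ((injective_iff_map_eq_zero _).2 fun w hw => ?_)).toContinuousLinearEquiv,
        hd.differentiableAt.hasFDerivAt.congr_fderiv (by ext <;> rfl)⟩
    rw [hd.fderiv] at hw
    simp at hw
    exact Prod.ext (by simp only [Prod.fst_zero]; linear_combination P.2 * hw.2 - β / 2 * hw.1 - w.1 * hab)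
      (by simp only [Prod.snd_zero]; linear_combination F.derivative.eval P.1 / 2 * hw.2 + α / 2 * hw.1 - w.2 * hab)
  have hc : ContDiffAt ℂ ⊤ Φ P := an.contDiffAt
  have hs := hc.hasStrictFDerivAt' he (by simp)
  set s0 := α * P.1 + β * P.2 with hs0
  have e0 : Φ P = (0, s0) := by simp [hΦ, hP, hs0]
  set Ψ := hs.localInverse Φ e P
  have aΨ : AnalyticAt ℂ (fun s => Ψ (0, s)) s0 :=
    (e0 ▸ (hc.to_localInverse he (by simp)).analyticAt).comp (analyticAt_const.prod analyticAt_id)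
  have ri : ∀ᶠ s in 𝓝 s0, Φ (Ψ (0, s)) = (0, s) :=
    (Continuous.prodMk_right (0 : ℂ)).continuousAt.eventually (e0 ▸ hs.eventually_right_inverse)
  have v0 : Ψ (0, s0) = P := e0 ▸ hs.localInverse_apply_image
  set x : ℂ → ℂ := fun s => (Ψ (0, s)).1
  set y : ℂ → ℂ := fun s => (Ψ (0, s)).2
  have ax : AnalyticAt ℂ x s0 := analyticAt_fst.comp aΨ
  have ay : AnalyticAt ℂ y s0 := analyticAt_snd.comp aΨ
  set d : ℂ → ℂ := fun s => α * y s + β * (F.derivative.eval (x s) / 2) with hdd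
  have ad : AnalyticAt ℂ d s0 := (analyticAt_const.mul ay).add (analyticAt_const.mul
    (((F.derivative.differentiable.analyticAt _).comp ax).div_const))
  have d0 : d s0 ≠ 0 := by simp only [hdd, x, y, v0, hab]; simp
  obtain ⟨r, hr, hb⟩ := Metric.eventually_nhds_iff_ball.1 (ax.eventually_analyticAt.and
    (ay.eventually_analyticAt.and (ad.eventually_analyticAt.and
      ((ad.continuousAt.eventually_ne d0).and ri.eventually_nhds))))
  have ex : ∀ l : Fin g, ∃ q : ℂ → ℂ, ∀ s ∈ Metric.ball s0 r,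
      HasDerivAt q (x s ^ (l : ℕ) * (d s)⁻¹) s := fun l =>
    DifferentiableOn.isExactOn_ball fun s hs => (((hb s hs).1.pow l).mul
      ((hb s hs).2.2.1.inv (hb s hs).2.2.2.1)).differentiableAt.differentiableWithinAt
  choose q hq using ex
  refine ⟨r, x, y, fun s => (d s)⁻¹, fun s l => q l s, fun Q => α * Q.1 + β * Q.2, hr, by fun_prop,
    fun s hs => ?_, fun s hs => inv_ne_zero (hb s hs).2.2.2.1, ?_⟩
  · obtain ⟨a1, a2, a3, a4, a5⟩ := hb s hs
    have b1 := a1.differentiableAt.hasDerivAt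
    have b2 := a2.differentiableAt.hasDerivAt
    have c1 := ((b2.pow 2).sub ((F.hasDerivAt _).comp s b1)).unique
      ((hasDerivAt_const s 0).congr_of_eventuallyEq (a5.mono fun t ht => congrArg Prod.fst ht))
    have c2 := ((b1.const_mul α).add (b2.const_mul β)).unique
      ((hasDerivAt_id s).congr_of_eventuallyEq (a5.mono fun t ht => congrArg Prod.snd ht))
    simp only [Nat.cast_ofNat, Nat.add_one_sub_one, pow_one] at c1
    refine ⟨sub_eq_zero.1 (congrArg Prod.fst a5.self_of_nhds), b1.congr_deriv ?_,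
      b2.congr_deriv ?_, a3.continuousAt.inv₀ a4, fun l => hq l s hs⟩
    · rw [eq_mul_inv_iff_mul_eq₀ a4]
      linear_combination y s * c2 - β / 2 * c1
    · rw [eq_mul_inv_iff_mul_eq₀ a4]
      linear_combination F.derivative.eval (x s) / 2 * c2 + α / 2 * c1
  · filter_upwards [hs.eventually_left_inverse] with Q h1 h2
    have : Φ Q = (0, α * Q.1 + β * Q.2) := by simp [hΦ, h2]
    rw [this] at h1
    exact h1

end Pool.Agent.P.MP_e5b57f_nt.HJ
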