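import Pool.Agent.P.MP_e5b57f_nt.HJ.Val
import Pool.Agent.P.MP_e5b57f_nt.HJ.Way

/-! The charts at infinity. -/

namespace Pool.Agent.P.MP_e5b57f_nt.HJ

open Polynomial Set Filter Topology Metric

variable {f : ℚ[X]}

/-- the polynomial over the complex numbers -/
noncomputable abbrev cx (f : ℚ[X]) : ℂ[X] := f.map (algebraMap ℚ ℂ)

noncomputable def xi (j : ℕ) (s : ℂ) : ℂ := (s ^ 2)⁻¹ + j

noncomputable def yi (f : ℚ[X]) (j : ℕ) (s : ℂ) : ℂ := rt (NN f j) (s ^ 2) / s ^ f.natDegree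

noncomputable def ri (f : ℚ[X]) (j : ℕ) (s : ℂ) : ℂ := -2 / (s ^ 3 * yi f j s)

noncomputable def pi (f : ℚ[X]) (j : ℕ) (s : ℂ) (l : Fin (gen f)) : ℂ :=
  -(s ^ (f.natDegree - 2 * gen f) * GG f j l (s ^ 2))

lemma Ch.mono {F : ℂ[X]} {g : ℕ} {Ω Ω' : Set ℂ} {x y ρ : ℂ → ℂ} {p : ℂ → Fin g → ℂ}
    (h : Ch F Ω x y ρ p) (k : Ω' ⊆ Ω) : Ch F Ω' x y ρ p := fun s hs => h s (k hs)

lemma Ch.neg {F : ℂ[X]} {g : ℕ} {Ω : Set ℂ} {x y ρ : ℂ → ℂ} {p : ℂ → Fin g → ℂ}
    (h : Ch F Ω x y ρ p) : Ch F Ω x (fun s => -y s) (fun s => -ρ s) fun s => -p s := fun s hs => by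
  obtain ⟨a, b, c, d, e⟩ := h s hs
  exact ⟨by rw [neg_sq, a], b.congr_deriv (neg_mul_neg ..).symm,
    c.neg.congr_deriv (mul_neg ..).symm, d.neg, fun l => (e l).neg.congr_deriv (mul_neg ..).symm⟩

lemma inf_chart (hf : f.Monic) (hn : 3 ≤ f.natDegree) (j : ℕ) : ∃ r > 0,
    Ch (cx f) (ball 0 r \ {0}) (xi j) (yi f j) (ri f j) (pi f j) ∧
      ∀ s ∈ ball (0 : ℂ) r, 0 < (rt (NN f j) (s ^ 2)).re ∧
        ∀ l, DifferentiableAt ℂ (fun s => pi f j s l) s := by
  have h0 := NN_zero hf j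
  have hm : 1 ≤ f.natDegree - 2 * gen f := by unfold gen; omega
  have t : Tendsto (fun s : ℂ => s ^ 2) (𝓝 0) (𝓝 0) := by
    simpa using (continuous_pow 2).tendsto (0 : ℂ)
  have pos : ∀ᶠ z in 𝓝 (0 : ℂ), 0 < (rt (NN f j) z).re :=
    continuousAt_const.eventually_lt (Complex.continuous_re.continuousAt.comp
      (rt_an h0).continuousAt) (by simp [rt_zero h0])
  obtain ⟨r, hr, hb⟩ := Metric.eventually_nhds_iff_ball.1 (t.eventually (pos.and
    ((rt_an h0).eventually_analyticAt.and (eventually_all.2 fun l : Fin (gen f) =>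
      (gf_an h0 hm (PP (gen f) j l)).eventually_analyticAt.and (gf_de h0 hm (PP (gen f) j l))))))
  have dp : ∀ s ∈ ball (0 : ℂ) r, ∀ l : Fin (gen f), HasDerivAt (fun s => pi f j s l) _ s :=
    fun s hs l => ((hasDerivAt_pow _ s).mul (((hb s hs).2.2 l).1.differentiableAt.hasDerivAt.comp s
      (hasDerivAt_pow 2 s))).neg
  refine ⟨r, hr, fun s hs => ?_, fun s hs => ⟨(hb s hs).1, fun l => (dp s hs l).differentiableAt⟩⟩
  have s0 : s ≠ 0 := hs.2
  obtain ⟨b1, b2, b3⟩ := hb s hs.1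
  have r0 : rt (NN f j) (s ^ 2) ≠ 0 := fun e => by simp [e] at b1
  have y0 : yi f j s ≠ 0 := div_ne_zero r0 (pow_ne_zero _ s0)
  have e : ∀ s ≠ 0, yi f j s ^ 2 = (cx f).eval (xi j s) := fun s h => by
    rw [yi, div_pow, rt_sq, NN_val j (pow_ne_zero 2 h), eval_map_algebraMap, xi, ← pow_mul,
      ← pow_mul, mul_comm 2, mul_div_cancel_left₀ _ (pow_ne_zero _ h)]
  have dx : HasDerivAt (xi j) (yi f j s * ri f j s) s :=
    (((hasDerivAt_pow 2 s).inv (pow_ne_zero 2 s0)).add_const (j : ℂ)).congr_deriv (by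
      rw [ri]
      field_simp
      norm_num [mul_comm])
  have dy : DifferentiableAt ℂ (yi f j) s :=
    (b2.differentiableAt.comp s (differentiableAt_pow 2)).div (differentiableAt_pow _)
      (pow_ne_zero _ s0)
  refine ⟨e s s0, dx, dy.hasDerivAt.congr_deriv (mul_left_cancel₀ y0 ?_),
    continuousAt_const.div ((continuous_pow 3).continuousAt.mul dy.continuousAt)
      (mul_ne_zero (pow_ne_zero _ s0) y0), fun l => (dp s hs.1 l).congr_deriv ?_⟩
  · have := (dy.hasDerivAt.pow 2).unique ((((cx f).hasDerivAt _).comp s dx).congr_of_eventuallyEq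
      ((eventually_ne_nhds s0).mono e))
    simp only [Nat.cast_ofNat, Nat.add_one_sub_one, pow_one] at this
    linear_combination this / 2
  · have k := (b3 l).2
    obtain ⟨a, ha⟩ : ∃ a, gen f = l + a + 1 := ⟨gen f - 1 - l, by omega⟩
    obtain ⟨m, hm⟩ : ∃ m, f.natDegree - 2 * gen f = m + 1 := ⟨_, (Nat.sub_add_cancel hm).symm⟩
    have e1 : f.natDegree = 2 * l + 2 * a + m + 3 := by unfold gen at *; omega
    have e2 : xi j s = (1 + j * s ^ 2) / s ^ 2 := by rw [xi]; field_simp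
    rw [PP_val, show gen f - 1 - l = a by omega, hm] at k
    simp only [Function.comp_apply, hm, Nat.add_sub_cancel, ri, yi, e2, div_pow]
    rw [e1]
    field_simp at k ⊢
    push_cast at k ⊢
    linear_combination -s ^ (2 * (l : ℕ) + m + 3) * k

/-- the parameter on the real ray -/
noncomputable def sr (j : ℕ) (x : ℝ) : ℂ := ((√(x - j))⁻¹ : ℝ)

lemma sr_lim (j : ℕ) : Tendsto (sr j) atTop (𝓝 0) := by
  have := (Complex.continuous_ofReal.tendsto 0).comp (tendsto_inv_atTop_zero.comp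
    (Real.tendsto_sqrt_atTop.comp (tendsto_atTop_add_const_right atTop (-(j : ℝ)) tendsto_id)))
  exact this

lemma ray (hf : f.Monic) (hn : 3 ≤ f.natDegree) (j : ℕ) : ∀ᶠ x : ℝ in atTop,
    yi f j (sr j x) ^ 2 = (cx f).eval (x : ℂ) ∧ 0 < (yi f j (sr j x)).re ∧
      ∀ l, HasDerivAt (fun x => pi f j (sr j x) l) (x ^ (l : ℕ) / yi f j (sr j x)) x := by
  obtain ⟨r, hr, h1, h2⟩ := inf_chart hf hn j
  filter_upwards [(sr_lim j).eventually (ball_mem_nhds 0 hr), eventually_gt_atTop (j : ℝ)]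
    with x hx hj
  have p : 0 < √(x - j) := Real.sqrt_pos.2 (by linarith)
  have p' : ((√(x - j) : ℝ) : ℂ) ≠ 0 := by exact_mod_cast p.ne'
  have s0 : sr j x ≠ 0 := by simpa [sr] using p.ne'
  have e : xi j (sr j x) = x := by
    rw [xi, sr, ← Complex.ofReal_pow, inv_pow, Real.sq_sqrt (by linarith)]
    simp
  obtain ⟨a, -, -, -, b⟩ := h1 _ ⟨hx, s0⟩
  have y0 : 0 < (yi f j (sr j x)).re := by
    rw [yi]
    nth_rewrite 2 [sr]
    rw [← Complex.ofReal_pow, Complex.div_ofReal_re]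
    exact div_pos (h2 _ hx).1 (by positivity)
  have y1 : yi f j (sr j x) ≠ 0 := fun k => by simp [k] at y0
  refine ⟨e ▸ a, y0, fun l => ((b l).comp x
    ((((hasDerivAt_id x).sub_const (j : ℝ)).sqrt (by simp; linarith)).inv p.ne').ofReal_comp).congr_deriv ?_⟩
  rw [e, ri]
  nth_rewrite 1 [sr]
  push_cast
  simp only [id]
  field_simp

lemma link (hf : f.Monic) (hn : 3 ≤ f.natDegree) (j : ℕ) : ∀ᶠ x : ℝ in atTop,
    pi f 0 (sr 0 x) = pi f j (sr j x) := by
  have lim : ∀ j l, Tendsto (fun x => pi f j (sr j x) l) atTop (𝓝 0) := fun j l => by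
    obtain ⟨r, hr, -, h2⟩ := inf_chart hf hn j
    have := ((h2 0 (mem_ball_self hr)).2 l).continuousAt.tendsto.comp (sr_lim j)
    rwa [show pi f j 0 l = 0 by
      rw [pi, zero_pow (by unfold gen; omega), zero_mul, neg_zero]] at this
  obtain ⟨a, ha⟩ := eventually_atTop.1 ((ray hf hn 0).and (ray hf hn j))
  filter_upwards [eventually_ge_atTop a] with x hx
  funext l
  have d : ∀ t, a ≤ t → HasDerivAt (fun x => pi f 0 (sr 0 x) l - pi f j (sr j x) l) 0 t :=
    fun t ht => by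
      obtain ⟨⟨a1, a2, a3⟩, b1, b2, b3⟩ := ha t ht
      refine ((a3 l).sub (b3 l)).congr_deriv ?_
      rw [(sq_eq_sq_iff_eq_or_eq_neg.1 (a1.trans b1.symm)).resolve_right fun e => ?_, sub_self]
      rw [e, Complex.neg_re] at a2
      linarith
  refine sub_eq_zero.1 (tendsto_nhds_unique (tendsto_const_nhds.congr' ?_)
    (sub_zero (0 : ℂ) ▸ (lim 0 l).sub (lim j l)))
  filter_upwards [eventually_ge_atTop x] with t ht
  exact (constant_of_has_deriv_right_zero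
    (fun z hz => (d z (hx.trans hz.1)).continuousAt.continuousWithinAt)
    (fun z hz => (d z (hx.trans hz.1)).hasDerivWithinAt) t ⟨ht, le_rfl⟩).symm

end Pool.Agent.P.MP_e5b57f_nt.HJ
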