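import Pool.Agent.P.MP_e5b57f_nt.GD.AFLD
import Pool.Agent.P.MP_e5b57f_nt.GD.BASIS
import Pool.Agent.P.MP_e5b57f_nt.GD.DFM
import Pool.Agent.P.MP_e5b57f_nt.GD.DFS
import Pool.Agent.P.MP_e5b57f_nt.GD.EVL
import Pool.Agent.P.MP_e5b57f_nt.GD.FUND
import Pool.Agent.P.MP_e5b57f_nt.GD.GB
import Pool.Agent.P.MP_e5b57f_nt.GD.GBT
import Pool.Agent.P.MP_e5b57f_nt.GD.GC
import Pool.Agent.P.MP_e5b57f_nt.GD.GF
import Pool.Agent.P.MP_e5b57f_nt.GD.GF0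
import Pool.Agent.P.MP_e5b57f_nt.GD.HAS
import Pool.Agent.P.MP_e5b57f_nt.GD.ITER
import Pool.Agent.P.MP_e5b57f_nt.GD.KEY
import Pool.Agent.P.MP_e5b57f_nt.GD.KRO
import Pool.Agent.P.MP_e5b57f_nt.GD.ORD
import Pool.Agent.P.MP_e5b57f_nt.GD.PADE
import Pool.Agent.P.MP_e5b57f_nt.GD.QDEN
import Pool.Agent.P.MP_e5b57f_nt.GD.SH
import Pool.Agent.P.MP_e5b57f_nt.GD.SH0
import Pool.Agent.P.MP_e5b57f_nt.GD.SPAN
import Pool.Agent.P.MP_e5b57f_nt.GD.SPEC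
import Pool.Agent.P.MP_e5b57f_nt.GD.WR
import Pool.Agent.P.MP_e5b57f_nt.GD.ZL

/-! The results on G-series that are used. -/

namespace Pool.Agent.P.MP_e5b57f_nt.HJ

open GD

theorem tGF : S_GF := s_GF (s_GF0 (s_ZL (s_SH (s_SH0 s_WR s_FUND)) s_ORD s_ITER s_SPAN) s_ITER
  s_PADE s_KEY s_HAS) s_GC s_EVL (s_BASIS s_GC) s_SPEC

theorem tDFS : S_DFS := s_DFS s_AFLD

theorem tGBT : S_GBT := s_GBT s_GB

end Pool.Agent.P.MP_e5b57f_nt.HJ
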