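import Pool.Agent.P.MP_e5b57f_nt.HJ.Pol

/-! Minimal relations in a triangular differential system. -/

namespace Pool.Agent.P.MP_e5b57f_nt.HJ

open Polynomial Finset
open scoped PowerSeries

/-- the derivative of a power series -/
noncomputable abbrev dd (u : ℂ⟦X⟧) : ℂ⟦X⟧ := PowerSeries.derivative ℂ u

lemma dd_mul (u v : ℂ⟦X⟧) : dd (u * v) = dd u * v + u * dd v := by
  rw [dd, Derivation.leibniz, smul_eq_mul, smul_eq_mul]
  ring

lemma coe_sum {ι : Type} (s : Finset ι) (p : ι → ℂ[X]) :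
    ((∑ i ∈ s, p i : ℂ[X]) : ℂ⟦X⟧) = ∑ i ∈ s, (p i : ℂ⟦X⟧) :=
  map_sum (coeToPowerSeries.ringHom (R := ℂ)) p s

lemma coe_prod {ι : Type} (s : Finset ι) (p : ι → ℂ[X]) :
    ((∏ i ∈ s, p i : ℂ[X]) : ℂ⟦X⟧) = ∏ i ∈ s, (p i : ℂ⟦X⟧) :=
  map_prod (coeToPowerSeries.ringHom (R := ℂ)) p s

lemma min_rel {ι J : Type} [Fintype ι] [Fintype J] [DecidableEq ι] (T : ℂ[X]) (M : ι → ℂ⟦X⟧)
    (deg : ι → ℕ) (lam : ι → ℂ[X]) (mu : ι × J → ℂ[X]) (φ : ι × J → ι)
    (hM : ∀ i, T * dd (M i) = lam i * M i + ∑ j, mu (i, j) * M (φ (i, j)))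
    (hφ : ∀ x, mu x ≠ 0 → deg (φ x) < deg x.1)
    {q : ι → ℂ[X]} (hq : q ≠ 0) (hr : ∑ i, q i * M i = 0) :
    ∃ (p : ι → ℂ[X]) (i0 : ι), ∑ i, p i * M i = 0 ∧ p i0 ≠ 0 ∧ (∀ i, p i ≠ 0 → deg i ≤ deg i0) ∧
      ∀ k, p i0 * (T * derivative (p k) + lam k * p k +
        ∑ x, if φ x = k then mu x * p x.1 else 0) =
          (T * derivative (p i0) + lam i0 * p i0) * p k := by
  classical
  have h1 : ∃ d, ∃ p : ι → ℂ[X], p ≠ 0 ∧ ∑ i, p i * M i = 0 ∧ ∀ i, p i ≠ 0 → deg i ≤ d :=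
    ⟨univ.sup deg, q, hq, hr, fun i _ => le_sup (mem_univ i)⟩
  set d := Nat.find h1
  have h2 : ∃ c, ∃ p : ι → ℂ[X], (p ≠ 0 ∧ ∑ i, p i * M i = 0 ∧ ∀ i, p i ≠ 0 → deg i ≤ d) ∧
      (univ.filter fun i => p i ≠ 0 ∧ deg i = d).card = c :=
    ⟨_, _, (Nat.find_spec h1).choose_spec, rfl⟩
  obtain ⟨p, ⟨p0, pr, pd⟩, pc⟩ := Nat.find_spec h2
  obtain ⟨i0, hi, hm⟩ := exists_max_image (univ.filter fun i => p i ≠ 0) deg
    (by simpa [filter_nonempty_iff] using Function.ne_iff.1 p0)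
  replace hi := (mem_filter.1 hi).2
  replace hm : ∀ i, p i ≠ 0 → deg i ≤ deg i0 := fun i h => hm i (by simpa using h)
  have hd : deg i0 = d := (pd i0 hi).antisymm (Nat.find_min' h1 ⟨p, p0, pr, hm⟩)
  refine ⟨p, i0, pr, hi, hm, ?_⟩
  set s : ι → ℂ[X] := fun k => ∑ x, if φ x = k then mu x * p x.1 else 0 with hs
  have s0 : ∀ k, d ≤ deg k → s k = 0 := fun k hk => sum_eq_zero fun x _ => by
    split_ifs with e
    · by_contra h
      have := hφ x (left_ne_zero_of_mul h)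
      have := pd _ (right_ne_zero_of_mul h)
      rw [e] at *
      omega
    · rfl
  set p' : ι → ℂ[X] := fun k => p i0 * (T * derivative (p k) + lam k * p k + s k) -
    (T * derivative (p i0) + lam i0 * p i0) * p k with hp'
  have z : ∀ k, d ≤ deg k → p k = 0 ∨ k = i0 → p' k = 0 := fun k hk h => by
    rcases h with h | rfl
    · simp [hp', s0 k hk, h]
    · simp only [hp', s0 k hk]
      ring
  suffices p' = 0 from fun k => sub_eq_zero.1 (congrFun this k)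
  by_contra hne
  refine Nat.find_min h2 (m := (univ.filter fun i => p' i ≠ 0 ∧ deg i = d).card) ?_
    ⟨p', ⟨hne, ?_, fun i h => ?_⟩, rfl⟩
  · rw [← pc]
    refine card_lt_card ⟨fun i h => ?_, fun h => ?_⟩
    · simp only [mem_filter, mem_univ, true_and] at h ⊢
      exact ⟨fun e => h.1 (z i h.2.ge (Or.inl e)), h.2⟩
    · exact (mem_filter.1 (h (mem_filter.2 ⟨mem_univ i0, hi, hd⟩))).2.1 (z i0 hd.ge (Or.inr rfl))
  · have e1 : ∑ k, (s k : ℂ⟦X⟧) * M k = ∑ i, p i * ∑ j, mu (i, j) * M (φ (i, j)) := by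
      simp only [hs, coe_sum, sum_mul]
      rw [sum_comm, Fintype.sum_prod_type]
      refine sum_congr rfl fun i _ => ?_
      rw [mul_sum]
      refine sum_congr rfl fun j _ => ?_
      rw [sum_eq_single (φ (i, j)) (fun k _ h => by simp [h.symm]) (by simp), if_pos rfl,
        Polynomial.coe_mul]
      ring
    have e2 : ∑ k, ((T * derivative (p k) + lam k * p k : ℂ[X]) : ℂ⟦X⟧) * M k +
        ∑ k, (s k : ℂ⟦X⟧) * M k = T * dd (∑ i, p i * M i) := by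
      rw [e1, dd, map_sum, mul_sum, ← sum_add_distrib]
      refine sum_congr rfl fun i _ => ?_
      rw [← dd, dd_mul, mul_add, mul_left_comm _ _ (dd (M i)), hM, dd, PowerSeries.derivative_coe]
      push_cast
      ring
    rw [pr, dd, map_zero, mul_zero, ← sum_add_distrib] at e2
    have e3 := congrArg ((p i0 : ℂ⟦X⟧) * ·) e2
    have e4 := congrArg (((T * derivative (p i0) + lam i0 * p i0 : ℂ[X]) : ℂ⟦X⟧) * ·) pr
    simp only [mul_zero, mul_sum] at e3 e4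
    rw [← sub_zero 0]
    nth_rewrite 1 [← e3, ← e4]
    rw [← sum_sub_distrib]
    refine sum_congr rfl fun k _ => ?_
    simp only [hp']
    push_cast
    ring
  · by_contra k
    exact h (z i (not_le.1 k).le (Or.inl (by_contra fun e => k (pd i e))))

end Pool.Agent.P.MP_e5b57f_nt.HJ
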