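import Pool.Agent.P.MP_e5b57f_nt.HJ.Span
import Pool.Agent.P.MP_e5b57f_nt.HJ.Elim

/-! Dense multiples on quadratic twists of hyperelliptic Jacobians. -/

namespace Pool.Agent.P.MP_e5b57f_nt.HJ

open Polynomial Set Filter Topology Metric Module

variable {f : ℚ[X]}

/-- real vectors as complex vectors -/
def cv {g : ℕ} (v : Fin g → ℝ) : Fin g → ℂ := fun l => v l

/-- twice the real part -/
def rv {g : ℕ} (u : Fin g → ℂ) : Fin g → ℝ := fun l => 2 * (u l).re

lemma cv_rv {g : ℕ} (u : Fin g → ℂ) : cv (rv u) = u + star u := funext fun l => by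
  simp [cv, rv, Complex.add_conj]

lemma cx_conj (f : ℚ[X]) : (cx f).map (starRingEnd ℂ) = cx f := by
  rw [Polynomial.map_map, RingHom.ext_rat ((starRingEnd ℂ).comp _) (algebraMap ℚ ℂ)]

lemma basis (hf : f.Monic) (hs : f.Separable) (hn : 3 ≤ f.natDegree) :
    ∃ ω : Basis (Fin (gen f)) ℝ (Fin (gen f) → ℝ), ∀ i, cv (ω i) ∈ Per (cx f) (gen f) := by
  set s := {v | cv v ∈ Per (cx f) (gen f)}
  have h : Submodule.span ℝ s = ⊤ := by
    by_contra k
    obtain ⟨φ, h1, h2⟩ := Submodule.exists_le_ker_of_lt_top _ (lt_top_iff_ne_top.2 k)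
    have := span hf hs hn (cv fun l => φ fun j => if l = j then 1 else 0) fun u hu => by
      have a : rv u ∈ s := by
        change cv (rv u) ∈ Per (cx f) (gen f)
        rw [cv_rv]
        exact add_mem hu (per_map (starAddEquiv (R := Fin (gen f) → ℂ)).toAddMonoidHom
          (fun P u k => ⟨_, k.conj (cx_conj f)⟩) hu)
      have b : φ (rv u) = 0 := h2 (Submodule.subset_span a)
      rw [LinearMap.pi_apply_eq_sum_univ] at b
      simp only [rv, smul_eq_mul, mul_assoc, ← Finset.mul_sum] at b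
      simpa [dotProduct, cv, mul_comm] using b
    refine h1 (LinearMap.ext fun v => ?_)
    rw [LinearMap.pi_apply_eq_sum_univ]
    exact Finset.sum_eq_zero fun l _ => by
      rw [show φ _ = 0 by simpa [cv] using congrFun this l, smul_zero]
  obtain ⟨v, h1, h2, h3⟩ := Submodule.exists_fun_fin_finrank_span_eq ℝ s
  have e : finrank ℝ (Submodule.span ℝ s) = gen f := by rw [h]; simp
  exact ⟨(Basis.mk h3 (h2.trans h).ge).reindex (finCongr e), fun i => by simpa [s] using h1 _⟩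

lemma base (hf : f.Monic) (hs : f.Separable) (hn : 3 ≤ f.natDegree) :
    ∃ u : Fin (gen f) → ℂ, ∀ᶠ x : ℝ in atTop, Way (cx f) (x, -yi f 0 (sr 0 x)) (x, yi f 0 (sr 0 x))
      (u + (pi f 0 (sr 0 x) + pi f 0 (sr 0 x))) := by
  obtain ⟨r, hr, h1, -⟩ := inf_chart hf hn 0
  have ev : ∀ᶠ x : ℝ in atTop, sr 0 x ∈ ball 0 r ∩ {s | 0 < s.re} ∧ xi 0 (sr 0 x) = x := by
    filter_upwards [(sr_lim 0).eventually (ball_mem_nhds 0 hr), eventually_gt_atTop 0] with x a b
    refine ⟨⟨mem_ball.2 a, by simpa [sr, ← Complex.ofReal_inv] using b⟩, ?_⟩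
    rw [xi, sr, ← Complex.ofReal_pow, inv_pow, Real.sq_sqrt (by simpa using b.le)]
    simp
  have c := h1.mono (Ω' := ball 0 r ∩ {s | 0 < s.re}) fun s hs =>
    ⟨hs.1, fun e => by simpa [mem_singleton_iff.1 e] using hs.2⟩
  obtain ⟨a, a1, -⟩ := ev.exists
  obtain ⟨u, hu⟩ := conn (sepC hs) (by
    rw [degree_map, degree_eq_natDegree hf.ne_zero]
    exact_mod_cast (by omega : f.natDegree ≠ 0)) (gen f) (c _ a1).1
  refine ⟨u - (pi f 0 (sr 0 a) + pi f 0 (sr 0 a)), ev.mono fun x ⟨b1, b2⟩ => ?_⟩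
  have w := c.seg ((convex_ball _ _).inter (convex_halfSpace_re_gt 0)) a1 b1
  rw [b2] at w
  convert (w.neg.symm.trans hu).trans w using 1
  abel

lemma good_of {g b : ℕ} (ω : Basis (Fin g) ℝ (Fin g → ℝ)) (hω : ∀ i, cv (ω i) ∈ Per (cx f) g)
    {Y : ℂ} (h1 : Y ^ 2 = (cx f).eval ((b : ℝ) : ℂ)) (h2 : 0 < Y.re) {u : Fin g → ℂ}
    (hu : Way (cx f) ((b : ℝ), -Y) ((b : ℝ), Y) u)
    (hi : ∀ (a : Fin g → ℤ) (a0 : ℤ), ∑ i, a i * ω.repr (rv u) i = a0 → a = 0) : Good f g b := by
  have e1 : Y ^ 2 = (f.eval (b : ℚ) : ℚ) := by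
    rw [h1, eval_map_algebraMap, Complex.ofReal_natCast, ← map_natCast (algebraMap ℚ ℂ),
      aeval_algebraMap_apply]
    rfl
  obtain ⟨y, rfl⟩ : ∃ y : ℝ, y = Y := by
    have := congrArg Complex.im e1
    simp only [sq, Complex.mul_im, Complex.ratCast_im] at this
    exact ⟨Y.re, Complex.ext rfl (by simp; nlinarith)⟩
  rw [Complex.ofReal_re] at h2
  have y0 : (y : ℂ) ≠ 0 := by exact_mod_cast h2.ne'
  have e2 : twist f b = C ((y : ℂ)⁻¹ ^ 2) * cx f := by
    rw [twist, Polynomial.map_mul, map_C, inv_pow, e1]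
    simp
  have sc : ∀ v ∈ Per (cx f) g, (y : ℂ) • v ∈ Per (twist f b) g := fun v hv =>
    per_map (DistribSMul.toAddMonoidHom _ (y : ℂ)) (fun P u k =>
      ⟨_, by simpa [e2] using k.scale (inv_ne_zero y0)⟩) hv
  have w0 : Way (twist f b) (b, -1) (b, 1) ((y : ℂ) • u) := by
    simpa [e2, y0] using hu.scale (inv_ne_zero y0)
  refine ⟨fun e => by simp [e, h2.ne'] at e1, ⟨_, w0⟩, fun u' hu' w k n hn hw => ?_⟩
  rintro _ ⟨v, rfl⟩
  set Θ : (Fin g → ℝ) →+ Jac (twist f b) g := (QuotientAddGroup.mk' _).comp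
    { toFun := fun x => (y : ℂ) • cv (ω.equivFun.symm x)
      map_zero' := by ext; simp [cv]
      map_add' := fun x z => by rw [map_add]; ext; simp only [cv, Pi.add_apply,
        Pi.smul_apply, Complex.ofReal_add, smul_add] } with hΘ
  have c : Continuous Θ := QuotientAddGroup.continuous_mk.comp (continuous_pi fun l =>
    continuous_const.mul (Complex.continuous_ofReal.comp ((continuous_apply l).comp
      ω.equivFun.symm.toLinearMap.continuous_of_finiteDimensional)))
  have t1 : ∀ κ : Fin g → ℤ, Θ (fun i => κ i) = 0 := fun κ => by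
    have : (fun i => (κ i : ℝ)) = ∑ i, κ i • Pi.single i (1 : ℝ) := by
      ext i
      simp [Pi.single_apply]
    rw [this, map_sum]
    refine Finset.sum_eq_zero fun i _ => ?_
    have z : Θ (Pi.single i 1) = 0 := (QuotientAddGroup.eq_zero_iff _).2
      (sc _ (by simpa [Pi.single_apply] using hω i))
    rw [map_zsmul, z, smul_zero]
  have t2 : Θ (ω.repr (rv u)) = (u' : Jac (twist f b) g) + u' := by
    refine QuotientAddGroup.eq_iff_sub_mem.2 ?_
    have a := sc _ ((hu.conj (cx_conj f)).sub_mem (by simpa [Prod.star_def] using hu))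
    have a' := w0.sub_mem hu'
    convert add_mem a (add_mem a' a') using 1
    change (y : ℂ) • cv (ω.equivFun.symm (ω.equivFun (rv u))) - _ = _
    rw [LinearEquiv.symm_apply_apply, cv_rv]
    module
  have t3 : Θ (ω.repr (y⁻¹ • v)) = QuotientAddGroup.mk fun l => (v l : ℂ) := by
    refine congrArg QuotientAddGroup.mk ?_
    change (y : ℂ) • cv (ω.equivFun.symm (ω.equivFun (y⁻¹ • v))) = _
    rw [LinearEquiv.symm_apply_apply]
    ext l
    simp [cv, y0]
  rw [← t3]
  refine map_mem_closure (s := {x | Θ x ∈ AddSubgroup.zmultiples w}) c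
    (Metric.mem_closure_iff.2 fun ε hε => ?_) fun _ h => h
  obtain ⟨N, κ, h⟩ := GD.s_KRO (Fin g) (fun i => n * ω.repr (rv u) i) (ω.repr (y⁻¹ • v))
    (fun a a0 h => ⟨0, by
      have := hi (fun i => a i * n) a0 (by simpa [mul_assoc] using h)
      have : a = 0 := funext fun i => (mul_eq_zero.1 (congrFun this i)).resolve_right hn
      simp [this]⟩) ε hε
  refine ⟨(N * n) • ⇑(ω.repr (rv u)) - fun i => (κ i : ℝ), ⟨2 * N * k, ?_⟩,
    (dist_pi_lt_iff hε).2 fun i => ?_⟩
  · simp only [map_sub, map_zsmul, t1, t2, mul_smul, hw]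
    module
  · rw [dist_comm, Real.dist_eq]
    simpa [mul_assoc] using h i

theorem main_monic (hf : f.Monic) (hs : f.Separable) (hn : 3 ≤ f.natDegree) (L : ℕ) :
    ∀ᶠ a : ℕ in atTop,
      {b | a ≤ b ∧ b < a + L ∧ ¬Good f (gen f) b}.ncard ≤ gen f ^ 2 + gen f := by
  classical
  obtain ⟨ω, hω⟩ := basis hf hs hn
  obtain ⟨u, hu⟩ := base hf hs hn
  obtain ⟨j0, hj⟩ : ∃ j0 : ℕ, ∀ j, j0 ≤ j → f.eval (j : ℚ) ≠ 0 := by
    have := ((finite_setOfPred_isRoot hf.ne_zero).preimage
      (Nat.cast_injective (R := ℚ)).injOn).compl_mem_cofinite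
    rw [Nat.cofinite_eq_atTop] at this
    exact eventually_atTop.1 this
  have e1 := (Finset.eventually_all (Finset.Ico j0 (j0 + L)).powerset).2 fun S hS =>
    val_indep hf hs hn S fun j h => hj j (Finset.mem_Ico.1 (Finset.mem_powerset.1 hS h)).1
  have e2 := (Finset.eventually_all (Finset.Ico j0 (j0 + L))).2 fun j _ =>
    ((tendsto_natCast_atTop_atTop (R := ℝ)).comp (tendsto_add_atTop_nat j)).eventually
      (hu.and ((ray hf hn 0).and (link hf hn j)))
  filter_upwards [(tendsto_sub_atTop_nat j0).eventually (e1.and (e2.and (eventually_gt_atTop 0))),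
    eventually_ge_atTop j0] with a ⟨h1, h2, h3⟩ ha
  obtain ⟨b, rfl⟩ := Nat.exists_eq_add_of_le' ha
  rw [Nat.add_sub_cancel] at h1 h2 h3
  by_contra hc
  obtain ⟨S, hS, cS⟩ := Finset.exists_subset_card_eq
    (s := (Finset.Ico j0 (j0 + L)).filter fun j => ¬Good f (gen f) (b + j))
    (n := gen f ^ 2 + gen f + 1) ((not_le.1 hc).trans_le (by
      rw [← ncard_coe_finset]
      refine ncard_le_ncard_of_injOn (· - b) (fun x hx => ?_) fun x hx x' hx' e => ?_
      · obtain ⟨x1, x2, x3⟩ := hx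
        simp only [Finset.coe_filter, Finset.mem_Ico, mem_ofPred_eq]
        exact ⟨by omega, by rwa [Nat.add_sub_cancel' (by omega)]⟩
      · have := hx.1
        have := hx'.1
        simp only at e
        omega))
  have m : ∀ j : S, _ := fun j => h2 j (Finset.mem_filter.1 (hS j.2)).1
  have k : ∀ j : S, ∃ (a : Fin (gen f) → ℤ) (a0 : ℤ), _ ∧ a ≠ 0 := fun j => by
    have := mt (good_of ω hω (m j).2.1.1 (m j).2.1.2.1 (m j).1) (Finset.mem_filter.1 (hS j.2)).2
    push Not at this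
    exact this
  choose a a0 k1 k2 using k
  have b0 : (0 : ℝ) < b := by exact_mod_cast h3
  set t : ℝ := -4 * (√b)⁻¹ ^ (f.natDegree - 2 * gen f) with ht
  obtain ⟨j, hj⟩ := elim (by simpa using cS) (fun (j : S) l => (GG f j l (b : ℂ)⁻¹).re)
    (h1 S (Finset.mem_powerset.2 (hS.trans (Finset.filter_subset _ _))))
    (fun i l => t * ω.repr (Pi.single l 1) i) (ω.repr (rv u)) a a0 fun j => by
      rw [← k1 j, (m j).2.2]
      refine Finset.sum_congr rfl fun i _ => congrArg _ ?_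
      have s1 : sr j ((b + j : ℕ) : ℝ) = ((√b)⁻¹ : ℝ) := by simp [sr]
      have s2 : (((√b)⁻¹ : ℝ) : ℂ) ^ 2 = (b : ℂ)⁻¹ := by
        rw [← Complex.ofReal_pow, inv_pow, Real.sq_sqrt b0.le]
        simp
      have : rv (u + (pi f j ((√b)⁻¹ : ℝ) + pi f j ((√b)⁻¹ : ℝ))) = rv u +
          ∑ l : Fin (gen f), (t * (GG f j l (b : ℂ)⁻¹).re) • Pi.single l (1 : ℝ) := by
        ext l
        simp only [rv, pi, s2, Pi.add_apply, Complex.add_re, Complex.neg_re, ← Complex.ofReal_pow,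
          Complex.re_ofReal_mul, Finset.sum_apply, Pi.smul_apply, Pi.single_apply, smul_eq_mul,
          mul_ite, mul_one, mul_zero, Finset.sum_ite_eq, Finset.mem_univ, if_true, ht]
        ring
      rw [Function.comp_apply, s1, this]
      simp [mul_comm, mul_assoc]
  refine k2 j (funext fun i => ?_)
  have t0 : t ≠ 0 := by rw [ht]; positivity
  have z : ∑ i, (a j i : ℝ) • ω.coord i = 0 := (Pi.basisFun ℝ _).ext fun l => by
    have := hj l
    simp only [mul_left_comm _ t, ← Finset.mul_sum, mul_eq_zero, t0, false_or] at this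
    simpa using this
  simpa [Finsupp.single_apply] using DFunLike.congr_fun z (ω i)

theorem main (f : ℚ[X]) (g : ℕ) (hs : f.Separable) (hg : 1 ≤ g)
    (hn : f.natDegree = 2 * g + 1 ∨ f.natDegree = 2 * g + 2) (L : ℕ) :
    ∀ᶠ a : ℕ in atTop, {b | a ≤ b ∧ b < a + L ∧ ¬Good f g b}.ncard ≤ g ^ 2 + g := by
  have h0 := leadingCoeff_ne_zero.2 hs.ne_zero
  have d : (f * C f.leadingCoeff⁻¹).natDegree = f.natDegree := natDegree_mul_C (inv_ne_zero h0)
  have e : gen (f * C f.leadingCoeff⁻¹) = g := by rw [gen, d]; omega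
  have t : ∀ b, twist (f * C f.leadingCoeff⁻¹) b = twist f b := fun b => by
    rw [twist, twist, mul_comm f, ← mul_assoc, ← C_mul, eval_mul, eval_C, mul_inv, inv_inv,
      mul_right_comm, mul_inv_cancel₀ h0, one_mul]
  have := main_monic (monic_mul_leadingCoeff_inv hs.ne_zero)
    (hs.mul_unit (isUnit_C.2 (inv_ne_zero h0).isUnit)) (by omega) L
  rw [e] at this
  have k : ∀ b, Good (f * C f.leadingCoeff⁻¹) g b ↔ Good f g b := fun b => by
    simp [Good, t, hs.ne_zero]
  simpa only [k] using this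

end Pool.Agent.P.MP_e5b57f_nt.HJ
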