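import Mathlib

/-! Polynomial identities: Wronskians and exact forms on a hyperelliptic curve. -/

namespace Pool.Agent.P.MP_e5b57f_nt.HJ

open Polynomial Finset

lemma exists_fac {A : ℂ[X]} (hA : A ≠ 0) (τ : ℂ) :
    ∃ t : ℂ[X], A = (X - C τ) ^ rootMultiplicity τ A * t ∧ t.eval τ ≠ 0 := by
  obtain ⟨t, h1, h2⟩ := exists_eq_pow_rootMultiplicity_mul_and_not_dvd A hA τ
  exact ⟨t, h1, fun e => h2 (dvd_iff_isRoot.2 e)⟩

lemma mul_der_pow (τ : ℂ) (e : ℕ) (t : ℂ[X]) : (X - C τ) * derivative ((X - C τ) ^ e * t) =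
    (X - C τ) ^ e * ((e : ℂ[X]) * t + (X - C τ) * derivative t) := by
  cases e with
  | zero => simp
  | succ e =>
    simp only [derivative_mul, derivative_X_sub_C_pow, Nat.add_sub_cancel, map_natCast]
    ring

/-- a vanishing Wronskian forces equal multiplicities -/
lemma wr_mult {A B : ℂ[X]} (hA : A ≠ 0) (hB : B ≠ 0) (h : A * derivative B = derivative A * B)
    (τ : ℂ) : rootMultiplicity τ A = rootMultiplicity τ B := by
  obtain ⟨s, h1, h2⟩ := exists_fac hA τ
  obtain ⟨t, h3, h4⟩ := exists_fac hB τ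
  generalize rootMultiplicity τ A = a at h1
  generalize rootMultiplicity τ B = b at h3
  have e1 := mul_der_pow τ a s
  have e2 := mul_der_pow τ b t
  rw [← h1] at e1
  rw [← h3] at e2
  have e : (X - C τ) ^ a * (X - C τ) ^ b * (s * ((b : ℂ[X]) * t + (X - C τ) * derivative t) -
      ((a : ℂ[X]) * s + (X - C τ) * derivative s) * t) = 0 := by
    linear_combination (X - C τ) * h - (X - C τ) ^ a * s * e2 + (X - C τ) ^ b * t * e1 -
      (X - C τ) * derivative B * h1 + (X - C τ) * derivative A * h3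
  have := congrArg (eval τ) ((mul_eq_zero.1 e).resolve_left
    (mul_ne_zero (pow_ne_zero _ (X_sub_C_ne_zero τ)) (pow_ne_zero _ (X_sub_C_ne_zero τ))))
  simp only [eval_sub, eval_mul, eval_add, eval_natCast, eval_X, eval_C, sub_self, zero_mul,
    add_zero, eval_zero] at this
  have k : ((a : ℂ) - b) * (s.eval τ * t.eval τ) = 0 := by linear_combination -this
  exact_mod_cast sub_eq_zero.1 ((mul_eq_zero.1 k).resolve_right (mul_ne_zero h2 h4))

lemma wr_const {A B : ℂ[X]} (hB : B ≠ 0) (h : A * derivative B = derivative A * B) :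
    ∃ c, A = C c * B := by
  obtain ⟨τ, hτ⟩ : ∃ τ, B.eval τ ≠ 0 := by
    by_contra k
    push Not at k
    exact hB (Polynomial.funext fun τ => by simp [k])
  refine ⟨A.eval τ / B.eval τ, sub_eq_zero.1 (by_contra fun k => ?_)⟩
  have := wr_mult k hB (by simp only [derivative_sub, derivative_C_mul]; linear_combination h) τ
  rw [rootMultiplicity_eq_zero hτ, rootMultiplicity_eq_zero_iff] at this
  refine k (this ?_)
  simp [div_mul_cancel₀ _ hτ]

lemma coeff_th (q : ℂ[X]) (n : ℕ) : (X * derivative q).coeff n = n * q.coeff n := by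
  cases n with
  | zero => simp
  | succ n => rw [coeff_X_mul, coeff_derivative]; push_cast; ring

lemma deg_th (q : ℂ[X]) : (X * derivative q).natDegree ≤ q.natDegree :=
  natDegree_le_iff_coeff_eq_zero.2 fun n h => by
    rw [coeff_th, coeff_eq_zero_of_natDegree_lt h, mul_zero]

lemma coeff_three {x y z : ℂ[X]} {a b c : ℕ} (hx : x.natDegree ≤ a) (hy : y.natDegree ≤ b)
    (hz : z.natDegree ≤ c) : (x * y * z).coeff (a + b + c) = x.coeff a * y.coeff b * z.coeff c := by
  rw [coeff_mul_add_eq_of_natDegree_le (natDegree_mul_le.trans (add_le_add hx hy)) hz,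
    coeff_mul_add_eq_of_natDegree_le hx hy]

/-- simple roots, constant term one -/
def Sq (N : ℂ[X]) : Prop := N.eval 0 = 1 ∧ ∀ τ, N.eval τ = 0 → N.derivative.eval τ ≠ 0

lemma ode_den {N a T p : ℂ[X]} {m : ℕ} (hN : Sq N) (hm : m ≤ 2) (hT : T ≠ 0) (hc : IsRelPrime a T)
    (h : 2 * X * N * (T * derivative a - derivative T * a) + (X * derivative N + (m : ℂ[X]) * N) * a * T +
      2 * p * T ^ 2 = 0) : T.natDegree ≤ 1 := by
  classical
  rw [(IsAlgClosed.splits T).natDegree_eq_card_roots]
  refine (Multiset.card_le_card (t := {0}) (Multiset.le_iff_count.2 fun τ => ?_)).trans (by simp)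
  rw [count_roots]
  obtain ⟨t, h1, h2⟩ := exists_fac hT τ
  generalize rootMultiplicity τ T = e at h1
  obtain _ | e := e
  · exact Nat.zero_le _
  have hY := X_sub_C_ne_zero τ
  have ha : a.eval τ ≠ 0 := fun k => not_isUnit_X_sub_C τ
    (hc (dvd_iff_isRoot.2 k) (h1 ▸ (dvd_pow_self _ e.succ_ne_zero).mul_right t))
  have e1 : (X - C τ) ^ e * (2 * X * N * ((X - C τ) * t * derivative a -
      (((e : ℂ[X]) + 1) * t + (X - C τ) * derivative t) * a) + (X * derivative N + (m : ℂ[X]) * N) * a *
      ((X - C τ) * t) + 2 * p * (X - C τ) ^ (e + 2) * t ^ 2) = 0 := by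
    rw [← h, h1]
    simp only [derivative_mul, derivative_X_sub_C_pow, Nat.add_sub_cancel, map_natCast]
    push_cast
    ring
  have e2 := (mul_eq_zero.1 e1).resolve_left (pow_ne_zero _ hY)
  have he : (e : ℂ) + 1 ≠ 0 := by exact_mod_cast e.succ_ne_zero
  obtain ⟨W, hW⟩ : X - C τ ∣ X * N := by
    have := congrArg (eval τ) e2
    simp [h2, ha, he] at this
    simpa [dvd_iff_isRoot] using this
  have e3 : (X - C τ) * (2 * W * ((X - C τ) * t * derivative a -
      (((e : ℂ[X]) + 1) * t + (X - C τ) * derivative t) * a) + (X * derivative N + (m : ℂ[X]) * N) * a * t +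
      2 * p * (X - C τ) ^ (e + 1) * t ^ 2) = 0 := by
    rw [← e2, mul_assoc 2 X N, hW]
    ring
  have e4 := congrArg (eval τ) ((mul_eq_zero.1 e3).resolve_left hY)
  have e5 := congrArg (fun q => eval τ (derivative q)) hW
  have e6 := congrArg (eval τ) hW
  simp at e4 e5 e6
  have e7 : -2 * (e + 1) * (N.eval τ + τ * N.derivative.eval τ) +
      (τ * N.derivative.eval τ + m * N.eval τ) = 0 := by
    refine mul_right_cancel₀ (mul_ne_zero h2 ha) ?_
    linear_combination e4 - 2 * (e + 1) * t.eval τ * a.eval τ * e5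
  rcases e6 with rfl | e6
  · rw [hN.1] at e7
    have : (m : ℂ) = (2 * (e + 1) : ℕ) := by push_cast; linear_combination e7
    have : m = 2 * (e + 1) := by exact_mod_cast this
    simp
    omega
  · have h0 : τ ≠ 0 := by rintro rfl; simp [hN.1] at e6
    rw [e6] at e7
    have k : ((2 * e + 1 : ℕ) : ℂ) * (τ * N.derivative.eval τ) = 0 := by
      push_cast; linear_combination -e7
    exact absurd k (mul_ne_zero (by exact_mod_cast (2 * e).succ_ne_zero)
      (mul_ne_zero h0 (hN.2 τ e6)))

/-- a holomorphic form that is exact vanishes -/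
lemma ode {N a T p : ℂ[X]} {m : ℕ} (hN : Sq N) (hm0 : 1 ≤ m) (hm : m ≤ 2) (hT : T ≠ 0)
    (hp : p.natDegree + 2 ≤ N.natDegree)
    (h : 2 * X * N * (T * derivative a - derivative T * a) + (X * derivative N + (m : ℂ[X]) * N) * a * T +
      2 * p * T ^ 2 = 0) : p = 0 := by
  obtain ⟨a, T, d, hc, rfl, rfl⟩ := UniqueFactorizationMonoid.exists_reduced_factors' a T hT
  have hd := left_ne_zero_of_mul hT
  replace hT := right_ne_zero_of_mul hT
  replace h : 2 * X * N * (T * derivative a - derivative T * a) +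
      (X * derivative N + (m : ℂ[X]) * N) * a * T + 2 * p * T ^ 2 = 0 := by
    refine mul_left_cancel₀ (pow_ne_zero 2 hd) ?_
    rw [mul_zero, ← h]
    simp only [derivative_mul]
    ring
  have h1 := ode_den hN hm hT hc h
  by_contra hp0
  have ha : a ≠ 0 := by
    rintro rfl
    simp [hp0, hT] at h
  have hN0 : N ≠ 0 := by
    rintro rfl
    simp at hp
  have e : C 2 * (X * derivative a * T * N) - C 2 * (a * (X * derivative T) * N) +
      a * T * (X * derivative N) + C (m : ℂ) * (a * T * N) + C 2 * (p * T * T) = 0 := by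
    rw [← h, map_natCast, map_ofNat]
    ring
  have := congrArg (coeff · (a.natDegree + T.natDegree + N.natDegree)) e
  simp only [coeff_add, coeff_sub, coeff_C_mul, coeff_zero] at this
  rw [coeff_three (deg_th a) le_rfl le_rfl, coeff_three le_rfl (deg_th T) le_rfl,
    coeff_three le_rfl le_rfl (deg_th N), coeff_three le_rfl le_rfl le_rfl, coeff_th, coeff_th,
    coeff_th, coeff_eq_zero_of_natDegree_lt (p := p * T * T) ((natDegree_mul_le.trans
      (add_le_add natDegree_mul_le le_rfl)).trans_lt (by omega))] at this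
  simp only [coeff_natDegree] at this
  have k : (((2 * a.natDegree + N.natDegree + m : ℕ) : ℂ) - (2 * T.natDegree : ℕ)) *
      (a.leadingCoeff * T.leadingCoeff * N.leadingCoeff) = 0 := by
    push_cast
    linear_combination this
  have k2 : 2 * a.natDegree + N.natDegree + m = 2 * T.natDegree := by
    exact_mod_cast sub_eq_zero.1 ((mul_eq_zero.1 k).resolve_right (by simp [ha, hT, hN0]))
  omega

end Pool.Agent.P.MP_e5b57f_nt.HJ
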