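import Pool.Agent.P.MP_e5b57f_nt.HJ.Lib
import Pool.Agent.P.MP_e5b57f_nt.HJ.Ind

/-! Abelian integrals at infinity as G-series. -/

namespace Pool.Agent.P.MP_e5b57f_nt.HJ

open Polynomial Finset Filter Topology GD
open scoped PowerSeries

lemma an_ev {G : ℂ⟦X⟧} (h : Gr G) : AnalyticAt ℂ (ev G) 0 ∧ tay (ev G) = G := by
  obtain ⟨C, hC⟩ := h
  set p := FormalMultilinearSeries.ofScalars ℂ fun n => PowerSeries.coeff n G
  have hr : 0 < p.radius := by
    refine lt_of_lt_of_le ?_ (p.le_radius_of_bound C (r := ((C : NNReal) + 1)⁻¹) fun n => ?_)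
    · exact_mod_cast (by positivity : 0 < ((C : NNReal) + 1)⁻¹)
    · rw [FormalMultilinearSeries.ofScalars_norm]
      refine (mul_le_mul_of_nonneg_right (hC n) (by positivity)).trans ?_
      rw [pow_succ', mul_assoc, ← mul_pow]
      refine mul_le_of_le_one_right (by positivity) (pow_le_one₀ (by positivity) ?_)
      push_cast
      rw [← div_eq_mul_inv, div_le_one (by positivity)]
      linarith
  have e : p.sum = ev G := funext fun z => by
    simp only [FormalMultilinearSeries.sum, p, FormalMultilinearSeries.ofScalars_apply_eq, ev,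
      smul_eq_mul]
  have h1 := e ▸ (p.hasFPowerSeriesOnBall hr).hasFPowerSeriesAt
  refine ⟨h1.analyticAt, ?_⟩
  ext n
  rw [coeff_tay]
  exact congrFun (FormalMultilinearSeries.ofScalars_series_injective ℂ ℂ
    (h1.analyticAt.hasFPowerSeriesAt.eq_formalMultilinearSeries h1)) n

lemma ev_real {G : ℂ⟦X⟧} (h : Den G) (x : ℝ) : ((ev G x).re : ℂ) = ev G x := by
  rw [← Complex.conj_eq_iff_re, ev, Complex.conj_tsum]
  refine tsum_congr fun n => ?_
  obtain ⟨C, hC⟩ := h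
  obtain ⟨d, h1, -, h2⟩ := hC n
  obtain ⟨a, ha⟩ := h2 n le_rfl
  have hd : (d : ℂ) ≠ 0 := by exact_mod_cast h1.ne'
  rw [← eq_inv_mul_iff_mul_eq₀ hd] at ha
  simp [ha]

/-- the solution of `m G + 2 z G' = 2 h` -/
noncomputable def gs (m : ℕ) (h : ℂ⟦X⟧) : ℂ⟦X⟧ :=
  PowerSeries.mk fun k => 2 * PowerSeries.coeff k h / ((2 * k + m : ℕ) : ℂ)

lemma gs_de {m : ℕ} (hm : 1 ≤ m) (h : ℂ⟦X⟧) :
    (m : ℂ⟦X⟧) * gs m h + 2 * PowerSeries.X * dd (gs m h) = 2 * h := by
  ext k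
  have h0 : ((2 * k + m : ℕ) : ℂ) ≠ 0 := by exact_mod_cast (by omega : 2 * k + m ≠ 0)
  have c2 : (2 : ℂ⟦X⟧) = PowerSeries.C 2 := (map_ofNat _ 2).symm
  rw [map_add, ← map_natCast (PowerSeries.C (R := ℂ)), c2, mul_assoc, PowerSeries.coeff_C_mul,
    PowerSeries.coeff_C_mul, PowerSeries.coeff_C_mul]
  have e : PowerSeries.coeff k (PowerSeries.X * dd (gs m h)) = k * PowerSeries.coeff k (gs m h) := by
    cases k with
    | zero => simp
    | succ k => rw [PowerSeries.coeff_succ_X_mul, PowerSeries.coeff_derivative]; push_cast; ring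
  rw [e, gs, PowerSeries.coeff_mk]
  field_simp
  push_cast
  ring

lemma gs_GS {m : ℕ} (hm : 1 ≤ m) {h : ℂ⟦X⟧} (h1 : GB h) (h2 : Gr h) (h3 : Alg h) : GS (gs m h) := by
  refine ⟨?_, ?_, ?_⟩
  · obtain ⟨N, D, hN, hD, hi⟩ := h1
    obtain ⟨B, hB, hl⟩ := QDENx.lcm_le
    refine ⟨D * N * B ^ (2 + m), fun n => ⟨D * N ^ n * Nat.lcmUpto (2 * n + m),
      Nat.mul_pos (by positivity) (Nat.lcmUpto_pos _), ?_, fun k hk => ?_⟩⟩
    · rw [mul_pow, mul_pow, ← pow_mul]
      exact Nat.mul_le_mul (Nat.mul_le_mul (Nat.le_self_pow (by omega) _)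
        (Nat.pow_le_pow_right hN (by omega))) ((hl _).trans (Nat.pow_le_pow_right hB (by nlinarith)))
    · obtain ⟨c, hc⟩ : 2 * k + m ∣ Nat.lcmUpto (2 * n + m) :=
        Finset.dvd_lcm (f := id) (mem_Icc.2 ⟨by omega, by omega⟩)
      obtain ⟨e, rfl⟩ := Nat.exists_eq_add_of_le hk
      obtain ⟨a, ha⟩ := hi k
      have h0 : ((2 * k + m : ℕ) : ℂ) ≠ 0 := by exact_mod_cast (by omega : 2 * k + m ≠ 0)
      refine ⟨2 * N ^ e * c * a, ?_⟩
      rw [gs, PowerSeries.coeff_mk, hc, Nat.cast_mul, Nat.cast_mul (2 * k + m)]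
      rw [← map_natCast (PowerSeries.C (R := ℂ)), PowerSeries.coeff_C_mul] at ha
      push_cast [-Nat.cast_add]
      field_simp
      linear_combination (N : ℂ) ^ e * c * ha
  · obtain ⟨C, hC⟩ := h2
    refine ⟨2 * C, fun n => ?_⟩
    have h0 : (1 : ℝ) ≤ ((2 * n + m : ℕ) : ℝ) := by exact_mod_cast (by omega : 1 ≤ 2 * n + m)
    rw [gs, PowerSeries.coeff_mk, norm_div, Complex.norm_natCast, norm_mul, Complex.norm_ofNat]
    refine (div_le_self (by positivity) h0).trans ?_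
    push_cast
    rw [mul_pow]
    exact mul_le_mul (le_self_pow₀ (by norm_num) n.succ_ne_zero) (hC n) (norm_nonneg _)
      (by positivity)
  · have a : ∀ p : ℚ[X], Alg (algebraMap ℚ[X] ℂ⟦X⟧ p) := isAlgebraic_algebraMap
    have a2 : Alg 2 := map_ofNat (algebraMap ℚ[X] ℂ⟦X⟧) 2 ▸ a 2
    refine tDFS.2.2 1 (fun _ => gs m h) (fun _ => 2 * PowerSeries.X) (fun _ => 2 * h)
      (fun _ _ => -m) (fun _ => ⟨a2.mul ?_, mul_ne_zero (fun e => by
        simpa [map_ofNat] using congrArg PowerSeries.constantCoeff e) PowerSeries.X_ne_zero,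
        a2.mul h3, fun _ => by simpa using a (-m)⟩) (fun _ => ?_) 0
    · simpa [← aeval_X_eq] using a X
    · rw [Fin.sum_univ_one, ← gs_de hm h]
      ring

lemma gb_pol (p : ℚ[X]) : GB (algebraMap ℚ[X] ℂ⟦X⟧ p) := by
  rw [← aeval_X_eq]
  induction p using Polynomial.induction_on with
  | C a => simpa [algebraMap_rat] using s_GB.2.2.2.1 a
  | add p q hp hq => simpa using s_GB.1 _ _ hp hq
  | monomial n a h => simpa [pow_succ, ← mul_assoc] using s_GB.2.1 _ _ h s_GB.2.2.2.2.1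

lemma tay_pol (p : ℚ[X]) : tay (fun z => aeval z p) = algebraMap ℚ[X] ℂ⟦X⟧ p := by
  rw [tay_aeval (f := fun z => z) analyticAt_id, tay_id, aeval_X_eq]

lemma alg_map (p : ℚ[X]) :
    algebraMap ℚ[X] ℂ⟦X⟧ p = ((p.map (algebraMap ℚ ℂ) : ℂ[X]) : ℂ⟦X⟧) := by
  rw [PowerSeries.algebraMap_apply', polynomial_map_coe]

/-- the square root near the origin -/
noncomputable def rt (N : ℚ[X]) (z : ℂ) : ℂ := aeval z N ^ (2 : ℂ)⁻¹

/-- the primitive without its leading power -/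
noncomputable def gf (m : ℕ) (N P : ℚ[X]) : ℂ → ℂ := ev (gs m (tay fun z => aeval z P / rt N z))

lemma rt_sq (N : ℚ[X]) (z : ℂ) : rt N z ^ 2 = aeval z N := Complex.cpow_ofNat_inv_pow _ 2

section
variable {N : ℚ[X]} (hN : N.coeff 0 = 1)
include hN

lemma aeval_zero : aeval (0 : ℂ) N = 1 := by
  rw [← coeff_zero_eq_aeval_zero', hN, map_one]

lemma rt_zero : rt N 0 = 1 := by rw [rt, aeval_zero hN, Complex.one_cpow]

lemma rt_an : AnalyticAt ℂ (rt N) 0 :=
  (analyticAt_aeval (f := fun z => z) analyticAt_id N).cpow analyticAt_const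
    (by simp [aeval_zero hN])

lemma tay_rt : tay (rt N) ^ 2 = algebraMap ℚ[X] ℂ⟦X⟧ N := by
  rw [← tay_pow (rt_an hN), ← tay_pol]
  simp only [rt_sq]

lemma h_an (P : ℚ[X]) : AnalyticAt ℂ (fun z => aeval z P / rt N z) 0 :=
  (analyticAt_aeval (f := fun z => z) analyticAt_id P).fun_div (rt_an hN) (by simp [rt_zero hN])

lemma tay_h (P : ℚ[X]) :
    tay (rt N) * tay (fun z => aeval z P / rt N z) = algebraMap ℚ[X] ℂ⟦X⟧ P := by
  rw [← tay_mul (rt_an hN) (h_an hN P), ← tay_pol]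
  refine tay_congr (((rt_an hN).continuousAt.eventually_ne
    (y := 0) (by simp [rt_zero hN])).mono fun z hz => ?_)
  field_simp

lemma gf_GS {m : ℕ} (hm : 1 ≤ m) (P : ℚ[X]) : GS (gs m (tay fun z => aeval z P / rt N z)) := by
  have e0 : PowerSeries.constantCoeff (tay (rt N)) = 1 := by rw [constantCoeff_tay, rt_zero hN]
  have c : ∀ a : ℚ, GB (PowerSeries.C (a : ℂ)) := s_GB.2.2.2.1
  have k : (PowerSeries.C ((1 / 2 : ℚ) : ℂ) : ℂ⟦X⟧) * 2 = 1 := by
    rw [← map_ofNat (PowerSeries.C (R := ℂ)) 2, ← map_mul]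
    norm_num
  have gE : GB (tay (rt N)) := by
    have := tGBT 2 1 (PowerSeries.C ((1 / 2 : ℚ) : ℂ) * (tay (rt N) + 1))
      (algebraMap ℚ[X] ℂ⟦X⟧ (C (1 / 4) * (N - 1))) (by norm_num) (by simp [e0]; norm_num)
      (by rw [← tay_pol, constantCoeff_tay]; simp [aeval_zero hN]) (gb_pol _) (by
        have k2 : algebraMap ℚ[X] ℂ⟦X⟧ (C (1 / 4)) = PowerSeries.C ((1 / 2 : ℚ) : ℂ) ^ 2 := by
          rw [alg_map, ← map_pow]
          norm_num
        rw [map_mul, map_sub, ← tay_rt hN, map_one, k2, prod_range_succ, prod_range_one]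
        push_cast at k ⊢
        linear_combination PowerSeries.C (1 / 2 : ℂ) * (tay (rt N) + 1) * k)
    have := s_GB.1 _ _ (s_GB.1 _ _ this this) (c (-1))
    convert this using 1
    simp only [Rat.cast_neg, Rat.cast_one, map_neg, map_one]
    linear_combination -(tay (rt N) + 1) * k
  refine gs_GS hm ?_ (gr_tay (h_an hN P)) ?_
  · have := s_GB.2.1 _ _ (gb_pol P) (s_GB.2.2.2.2.2.1 _ _ gE ((tay_h hN 1).trans (map_one _)))
    rw [← tay_pol, ← tay_mul (analyticAt_aeval (f := fun z => z) analyticAt_id P) (h_an hN 1)]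
      at this
    simpa only [map_one, mul_one_div] using this
  · refine IsAlgebraic.of_mul (y := tay (rt N)) (mem_nonZeroDivisors_of_ne_zero fun e => ?_)
      (IsAlgebraic.of_pow two_pos (tay_rt hN ▸ isAlgebraic_algebraMap N))
      (tay_h hN P ▸ isAlgebraic_algebraMap P)
    simp [e] at e0

lemma gf_an {m : ℕ} (hm : 1 ≤ m) (P : ℚ[X]) : AnalyticAt ℂ (gf m N P) 0 :=
  (an_ev (gf_GS hN hm P).2.1).1

lemma gf_de {m : ℕ} (hm : 1 ≤ m) (P : ℚ[X]) : ∀ᶠ z in 𝓝 (0 : ℂ),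
    m * gf m N P z + 2 * z * deriv (gf m N P) z = 2 * (aeval z P / rt N z) := by
  have a := gf_an hN hm P
  have a1 : AnalyticAt ℂ (fun z : ℂ => 2 * z) 0 := by fun_prop
  refine eq_of_tay_eq ((analyticAt_const.fun_mul a).fun_add (a1.fun_mul a.deriv))
    (analyticAt_const.fun_mul (h_an hN P)) ?_
  rw [tay_add (analyticAt_const.fun_mul a) (a1.fun_mul a.deriv), tay_mul analyticAt_const a,
    tay_mul a1 a.deriv, tay_mul (g := fun z => z) analyticAt_const analyticAt_id,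
    tay_mul analyticAt_const (h_an hN P), tay_deriv, tay_const, tay_const, tay_id, gf,
    (an_ev (gf_GS hN hm P).2.1).2, map_natCast, map_ofNat]
  exact gs_de hm _

end

end Pool.Agent.P.MP_e5b57f_nt.HJ
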