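import Pool.Agent.P.MP_e5b57f_nt.HJ.Inf

/-! The real parts of the periods span, and conjugate points can be joined. -/

namespace Pool.Agent.P.MP_e5b57f_nt.HJ

open Polynomial Set Filter Topology Metric

variable {F : ℂ[X]} {g : ℕ}

lemma near (hF : ∀ z, F.eval z = 0 → F.derivative.eval z ≠ 0) (g : ℕ) {P : ℂ × ℂ}
    (hP : P.2 ^ 2 = F.eval P.1) : ∃ q : ℂ × ℂ → Fin g → ℂ, ContinuousAt q P ∧ q P = 0 ∧
      ∀ᶠ Q in 𝓝 P, Q.2 ^ 2 = F.eval Q.1 → Way F P Q (q Q) := by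
  obtain ⟨r, x, y, ρ, p, σ, hr, hσ, hc, -, h⟩ := chart hF g hP
  refine ⟨fun Q => p (σ Q) - p (σ P), ContinuousAt.sub (continuousAt_pi.2 fun l =>
    ((hc _ (mem_ball_self hr)).2.2.2.2 l).continuousAt.comp hσ.continuousAt) continuousAt_const,
    sub_self _, ?_⟩
  filter_upwards [h, hσ.continuousAt.eventually (ball_mem_nhds _ hr)] with Q h1 h2 h3
  have := hc.seg (convex_ball _ _) (mem_ball_self hr) h2
  rwa [h1 h3, h.self_of_nhds hP] at this

lemma conn (hF : ∀ z, F.eval z = 0 → F.derivative.eval z ≠ 0) (h0 : F.degree ≠ 0) (g : ℕ)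
    {x y : ℂ} (h : y ^ 2 = F.eval x) : ∃ u : Fin g → ℂ, Way F (x, -y) (x, y) u := by
  set B : ℂ → Prop := fun x => ∀ y, y ^ 2 = F.eval x → ∃ u : Fin g → ℂ, Way F (x, -y) (x, y) u
  have one : ∀ x y u, y ^ 2 = F.eval x → Way (g := g) F (x, -y) (x, y) u → B x :=
    fun x y u h k y' h' => by
      rcases sq_eq_sq_iff_eq_or_eq_neg.1 (h'.trans h.symm) with rfl | rfl
      · exact ⟨u, k⟩
      · exact ⟨-u, by simpa using k.symm⟩
  have lc : IsLocallyConstant B := (IsLocallyConstant.iff_eventually_eq B).2 fun a => by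
    obtain ⟨b, hb⟩ := IsAlgClosed.exists_pow_nat_eq (F.eval a) two_pos
    obtain ⟨q, -, -, h⟩ := near hF g (P := (a, b)) hb
    obtain ⟨ε, hε, h⟩ := Metric.eventually_nhds_iff.1 h
    filter_upwards [ball_mem_nhds a hε,
      F.continuous.continuousAt.eventually (ball_mem_nhds _ (mul_pos hε hε))] with x h1 h2
    obtain ⟨y, hy, h3⟩ : ∃ y, y ^ 2 = F.eval x ∧ dist y b < ε := by
      obtain ⟨y, hy⟩ := IsAlgClosed.exists_pow_nat_eq (F.eval x) two_pos
      by_contra k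
      push Not at k
      have k1 := k y hy
      have k2 := k (-y) (by rw [neg_sq, hy])
      rw [← hy, ← hb, dist_eq_norm,
        show y ^ 2 - b ^ 2 = -((y - b) * (-y - b)) by ring, norm_neg, norm_mul] at h2
      rw [dist_eq_norm] at k1 k2
      exact h2.not_ge (mul_le_mul k1 k2 hε.le (norm_nonneg _))
    have w := h (y := (x, y)) (max_lt h1 h3) hy
    refine propext ⟨fun k => ?_, fun k => ?_⟩
    · obtain ⟨u, k⟩ := k y hy
      exact one a b _ hb ((w.neg.trans k).trans w.symm)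
    · obtain ⟨u, k⟩ := k b hb
      exact one x y _ hy ((w.neg.symm.trans k).trans w)
  obtain ⟨α, hα⟩ := IsAlgClosed.exists_root F h0
  exact (lc.apply_eq_of_preconnectedSpace α x ▸ one α 0 0 (by simpa using hα.symm)
    (by simpa using Way.refl _)) y h

lemma exists_h (c : Fin g → ℂ) (hc : ∀ u ∈ Per F g, (c ⬝ᵥ u).re = 0) :
    ∃ h : ℂ × ℂ → ℝ, ∀ P Q u, Way F P Q u → h Q = h P + (c ⬝ᵥ u).re := by
  set rep : ℂ × ℂ → ℂ × ℂ := fun P => Classical.epsilon fun Q => ∃ u : Fin g → ℂ, Way F Q P u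
  have h1 : ∀ P, ∃ u : Fin g → ℂ, Way F (rep P) P u := fun P =>
    Classical.epsilon_spec (p := fun Q => ∃ u : Fin g → ℂ, Way F Q P u) ⟨P, 0, Way.refl P⟩
  choose w hw using h1
  refine ⟨fun P => (c ⬝ᵥ w P).re, fun P Q u k => ?_⟩
  have e : rep P = rep Q := congrArg Classical.epsilon (funext fun R =>
    propext ⟨fun ⟨_, a⟩ => ⟨_, a.trans k⟩, fun ⟨_, a⟩ => ⟨_, a.trans k.symm⟩⟩)
  have := hc _ ((hw Q).sub_mem (e ▸ (hw P).trans k))
  rw [dotProduct_sub, dotProduct_add, Complex.sub_re, Complex.add_re] at this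
  linarith

lemma far {r : ℝ} {x y ρ : ℂ → ℂ} {p : ℂ → Fin g → ℂ} (hc : Ch F (ball 0 r \ {0}) x y ρ p)
    (hp : ∀ s ∈ ball (0 : ℂ) r, ∀ l, DifferentiableAt ℂ (fun s => p s l) s) (c : Fin g → ℂ)
    {s : ℂ} (h0 : s ≠ 0) (hs : ‖s‖ < r / 2) :
    ∃ s1 u, ‖s1‖ = r / 2 ∧ Way F (x s, y s) (x s1, y s1) u ∧ 0 ≤ (c ⬝ᵥ u).re := by
  have p0 := norm_pos_iff.2 h0
  have hr : 0 < r / 2 := p0.trans hs
  obtain ⟨s1, h1, h2⟩ := Complex.exists_mem_frontier_isMaxOn_norm (U := ball 0 (r / 2))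
    (f := fun s => Complex.exp (c ⬝ᵥ p s)) isBounded_ball ⟨0, mem_ball_self hr⟩
    (DifferentiableOn.diffContOnCl fun z hz => DifferentiableAt.differentiableWithinAt
      (DifferentiableAt.cexp (DifferentiableAt.fun_sum fun l _ => (hp z
        (closedBall_subset_ball (half_lt_self (by linarith)) (closure_ball_subset_closedBall hz))
        l).const_mul _)))
  rw [frontier_ball _ hr.ne', mem_sphere_zero_iff_norm] at h1
  have h3 := h2 (subset_closure (mem_ball_zero_iff.2 hs))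
  simp only [mem_ofPred_eq, Function.comp_apply, Complex.norm_exp, Real.exp_le_exp] at h3
  have n1 : s1 / s ≠ 0 := div_ne_zero (norm_pos_iff.1 (h1 ▸ hr)) h0
  have e1 : s * Complex.exp (Complex.log (s1 / s)) = s1 := by
    rw [Complex.exp_log n1, mul_div_cancel₀ _ h0]
  have e2 : 0 ≤ (Complex.log (s1 / s)).re := by
    rw [Complex.log_re, norm_div]
    exact Real.log_nonneg ((one_le_div p0).2 (h1 ▸ hs.le))
  generalize Complex.log (s1 / s) = L at e1 e2
  have := hc.arc (σ := fun t => s * Complex.exp (t * L))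
    (σ' := fun t => s * (Complex.exp (t * L) * L)) (fun t ht => ⟨?_, by simp [h0]⟩)
    (fun t => by simpa using ((((hasDerivAt_id (t : ℂ)).mul_const L).cexp).const_mul s).comp_ofReal)
    (by fun_prop)
  · refine ⟨s1, p s1 - p s, h1, by simpa [e1] using this, ?_⟩
    rw [dotProduct_sub, Complex.sub_re]
    linarith
  · refine mem_ball_zero_iff.2 (lt_of_le_of_lt ?_ (h1 ▸ half_lt_self (by linarith) : ‖s1‖ < r))
    rw [← e1, norm_mul, norm_mul, Complex.norm_exp, Complex.norm_exp, Complex.re_ofReal_mul]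
    gcongr
    exact mul_le_of_le_one_left e2 ht.2

lemma loc_max (hF : ∀ z, F.eval z = 0 → F.derivative.eval z ≠ 0) (c : Fin g → ℂ) {P : ℂ × ℂ}
    (hP : P.2 ^ 2 = F.eval P.1)
    (h : ∀ Q u, Q.2 ^ 2 = F.eval Q.1 → Way F P Q u → (c ⬝ᵥ u).re ≤ 0) : c = 0 := by
  obtain ⟨r, x, y, ρ, p, σ, hr, -, hc, hρ, k⟩ := chart hF g hP
  have e := k.self_of_nhds hP
  generalize σ P = a at *
  have b : ∀ᶠ s in 𝓝 a, s ∈ ball a r := ball_mem_nhds a hr
  set q : ℂ[X] := ∑ l : Fin g, C (c l) * X ^ (l : ℕ) with hq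
  have d : ∀ s ∈ ball a r, HasDerivAt (fun s => Complex.exp (c ⬝ᵥ p s))
      (Complex.exp (c ⬝ᵥ p s) * (q.eval (x s) * ρ s)) s := fun s hs =>
    ((HasDerivAt.fun_sum fun l _ => ((hc s hs).2.2.2.2 l).const_mul (c l)).congr_deriv (by
      simp [hq, eval_finsetSum, Finset.sum_mul, mul_assoc])).cexp
  have m := Complex.eventually_eq_of_isLocalMax_norm (b.mono fun s hs => (d s hs).differentiableAt)
    (b.mono fun s hs => by
      have := h _ _ (hc s hs).1 (e ▸ hc.seg (convex_ball _ _) (mem_ball_self hr) hs)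
      rw [dotProduct_sub, Complex.sub_re] at this
      simp only [Function.comp_apply, Complex.norm_exp, Real.exp_le_exp]
      linarith)
  have z : ∀ {φ : ℂ → ℂ} {w v s : ℂ}, HasDerivAt φ v s → (∀ᶠ t in 𝓝 s, φ t = w) → v = 0 :=
    fun h1 h2 => h1.unique ((hasDerivAt_const _ _).congr_of_eventuallyEq h2)
  have q0 : q = 0 := by
    by_contra hq
    have m1 : ∀ᶠ s in 𝓝 a, x s = x a := by
      have : IsClosed ({z | q.IsRoot z} \ {x a}) := ((finite_setOfPred_isRoot hq).sdiff).isClosed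
      filter_upwards [b, m.eventually_nhds, (hc a (mem_ball_self hr)).2.1.continuousAt.eventually
        (this.isOpen_compl.mem_nhds fun k => k.2 rfl)] with s h1 h2 h3
      by_contra h4
      refine h3 ⟨?_, h4⟩
      simpa [hρ s h1] using z (d s h1) h2
    have m2 : ∀ᶠ s in 𝓝 a, y s = 0 := by
      filter_upwards [b, m1.eventually_nhds] with s h1 h2
      simpa [hρ s h1] using z (hc s h1).2.1 h2
    obtain ⟨a1, -, a2, -⟩ := hc a (mem_ball_self hr)
    refine hF (x a) (by rw [← a1, m2.self_of_nhds]; simp) ?_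
    simpa [hρ a (mem_ball_self hr)] using z a2 m2
  funext l
  simpa [hq, finsetSum_coeff, coeff_X_pow, Fin.val_inj] using congrArg (coeff · l) q0

variable {f : ℚ[X]}

lemma sepC (hs : f.Separable) (z : ℂ) (h : (cx f).eval z = 0) : (cx f).derivative.eval z ≠ 0 := by
  rw [derivative_map, eval_map_algebraMap] at *
  exact hs.aeval_derivative_ne_zero h

theorem span (hf : f.Monic) (hs : f.Separable) (hn : 3 ≤ f.natDegree) (c : Fin (gen f) → ℂ)
    (hc : ∀ u ∈ Per (cx f) (gen f), (c ⬝ᵥ u).re = 0) : c = 0 := by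
  obtain ⟨h, hh⟩ := exists_h c hc
  obtain ⟨r, hr, h1, h2⟩ := inf_chart hf hn 0
  set R := ((r / 2) ^ 2)⁻¹ with hR
  set K : Set (ℂ × ℂ) := {P | P.2 ^ 2 = (cx f).eval P.1 ∧ ‖P.1‖ ≤ R} with hK
  have cK : IsCompact K := by
    obtain ⟨M, hM⟩ := (isCompact_closedBall (0 : ℂ) R).exists_bound_of_continuousOn
      (cx f).continuous.continuousOn
    refine isCompact_of_isClosed_isBounded ((isClosed_eq (by fun_prop) (by fun_prop)).inter
      (isClosed_le continuous_fst.norm continuous_const)) (((isBounded_closedBall (x := 0) (r := R)).prod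
        (isBounded_closedBall (x := 0) (r := M + 1))).subset fun P hP => ?_)
    have k := mem_closedBall_zero_iff.2 hP.2
    have := hM _ k
    rw [← hP.1, norm_pow] at this
    exact ⟨k, mem_closedBall_zero_iff.2 (by nlinarith [sq_nonneg (‖P.2‖ - 1)])⟩
  obtain ⟨y0, hy0⟩ := IsAlgClosed.exists_pow_nat_eq ((cx f).eval 0) two_pos
  obtain ⟨P, hP, hm⟩ := cK.exists_isMaxOn ⟨(0, y0), hy0, by simp [hR]; positivity⟩ (f := h)
    fun P hP => by
      obtain ⟨q, q1, q2, q3⟩ := near (sepC hs) (gen f) hP.1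
      refine ContinuousWithinAt.congr_of_eventuallyEq (f := fun Q => h P + (c ⬝ᵥ q Q).re)
        (ContinuousAt.continuousWithinAt (by fun_prop)) ?_ (by simp [q2])
      filter_upwards [nhdsWithin_le_nhds q3, self_mem_nhdsWithin] with Q k1 k2
      exact hh _ _ _ (k1 k2.1)
  refine loc_max (sepC hs) c hP.1 fun Q u hQ w => ?_
  suffices h Q ≤ h P by linarith [hh _ _ _ w]
  by_cases k : ‖Q.1‖ ≤ R
  · exact hm ⟨hQ, k⟩
  have r0 : 0 < R := by positivity
  have k0 : Q.1 ≠ 0 := fun e => k (by simpa [e] using r0.le)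
  obtain ⟨s, hs'⟩ := IsAlgClosed.exists_pow_nat_eq Q.1⁻¹ two_pos
  have s0 : s ≠ 0 := fun e => inv_ne_zero k0 (by rw [← hs', e]; simp)
  have s1 : ‖s‖ < r / 2 := by
    refine lt_of_pow_lt_pow_left₀ 2 (by positivity) ?_
    rw [← norm_pow, hs', norm_inv]
    exact inv_lt_of_inv_lt₀ (by positivity) (not_le.1 k)
  have e : xi 0 s = Q.1 := by simp [xi, hs']
  have fin : ∀ {y ρ : ℂ → ℂ} {p : ℂ → Fin (gen f) → ℂ}, Ch (cx f) (ball 0 r \ {0}) (xi 0) y ρ p →
      (∀ s ∈ ball (0 : ℂ) r, ∀ l, DifferentiableAt ℂ (fun s => p s l) s) → Q.2 = y s →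
        h Q ≤ h P := fun a b d => by
    obtain ⟨t, u, t1, t2, t3⟩ := far a b c s0 s1
    have := hh _ _ _ t2
    rw [e, ← d] at this
    have t4 : t ∈ ball (0 : ℂ) r \ {0} :=
      ⟨mem_ball_zero_iff.2 (by linarith), norm_pos_iff.1 (by rw [t1]; positivity)⟩
    have := isMaxOn_iff.1 hm (xi 0 t, _) ⟨(a t t4).1, by simp [xi, t1, hR]⟩
    linarith
  have a := (h1 s ⟨mem_ball_zero_iff.2 (by linarith), s0⟩).1
  rcases sq_eq_sq_iff_eq_or_eq_neg.1 (hQ.trans (e ▸ a.symm)) with d | d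
  · exact fin h1 (fun s hs => (h2 s hs).2) d
  · exact fin h1.neg (fun s hs l => ((h2 s hs).2 l).neg) d

end Pool.Agent.P.MP_e5b57f_nt.HJ
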