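import Pool.Agent.P.MP_e5b57f_nt.HJ.Ser

/-! Linear independence of the values at shifted arguments. -/

namespace Pool.Agent.P.MP_e5b57f_nt.HJ

open Polynomial Finset Filter Topology GD
open scoped PowerSeries

/-- the polynomial in the coordinate at infinity -/
noncomputable def NN (f : ℚ[X]) (j : ℕ) : ℚ[X] := (f.comp (X + C (j : ℚ))).reverse

noncomputable def PP (g j l : ℕ) : ℚ[X] := (1 + C (j : ℚ) * X) ^ l * X ^ (g - 1 - l)

/-- the genus -/
def gen (f : ℚ[X]) : ℕ := (f.natDegree - 1) / 2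

noncomputable def GG (f : ℚ[X]) (j l : ℕ) : ℂ → ℂ :=
  gf (f.natDegree - 2 * gen f) (NN f j) (PP (gen f) j l)

variable {f : ℚ[X]}

lemma NN_zero (hf : f.Monic) (j : ℕ) : (NN f j).coeff 0 = 1 := by
  rw [NN, coeff_zero_reverse, (hf.comp_X_add_C _).leadingCoeff]

lemma deg_shift (j : ℕ) : (f.comp (X + C (j : ℚ))).natDegree = f.natDegree := by
  rw [natDegree_comp, natDegree_X_add_C, mul_one]

lemma NN_val (j : ℕ) {z : ℂ} (hz : z ≠ 0) :
    aeval z (NN f j) = z ^ f.natDegree * aeval (z⁻¹ + j) f := by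
  let _ := invertibleOfNonzero (inv_ne_zero hz)
  have := eval₂_reverse_mul_pow (algebraMap ℚ ℂ) z⁻¹ (f.comp (X + C (j : ℚ)))
  rw [invOf_eq_inv, inv_inv, deg_shift, ← aeval_def, ← aeval_def, aeval_comp] at this
  rw [map_add, aeval_X, aeval_C, map_natCast (algebraMap ℚ ℂ)] at this
  rw [← this, NN, inv_pow]
  field_simp

lemma NN_sq (hf : f.Monic) (hs : f.Separable) (j : ℕ) : Sq ((NN f j).map (algebraMap ℚ ℂ)) := by
  simp only [Sq, derivative_map, eval_map_algebraMap]
  refine ⟨aeval_zero (NN_zero hf j), fun τ h => ?_⟩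
  have h0 : τ ≠ 0 := by
    rintro rfl
    simp [aeval_zero (NN_zero hf j)] at h
  rw [NN_val j h0, mul_eq_zero_iff_left (pow_ne_zero _ h0)] at h
  have h1 := (hasDerivAt_pow f.natDegree τ).mul ((f.hasDerivAt_aeval (τ⁻¹ + j)).comp τ
    ((hasDerivAt_inv h0).add_const (j : ℂ)))
  rw [((NN f j).hasDerivAt_aeval τ).unique (h1.congr_of_eventuallyEq
    ((eventually_ne_nhds h0).mono fun z hz => NN_val j hz))]
  simp [h, h0, hs.aeval_derivative_ne_zero h]

lemma PP_val (g j l : ℕ) (z : ℂ) : aeval z (PP g j l) = (1 + j * z) ^ l * z ^ (g - 1 - l) := by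
  simp [PP]

lemma dat (hf : f.Monic) (hs : f.Separable) (hn : 3 ≤ f.natDegree) (S : Finset ℕ)
    (hS : ∀ j ∈ S, f.eval (j : ℚ) ≠ 0) :
    Dat (J := S) (f.natDegree - 2 * gen f) (fun j => (NN f j).map (algebraMap ℚ ℂ))
      (fun j => tay (rt (NN f j))) (fun j (l : Fin (gen f)) => tay (GG f j l))
      fun j l => (PP (gen f) j l).map (algebraMap ℚ ℂ) := by
  have hm : 1 ≤ f.natDegree - 2 * gen f := by unfold gen; omega
  refine ⟨hm, by unfold gen; omega, fun j => NN_sq hf hs j,
    fun j => (tay_rt (NN_zero hf j)).trans (alg_map _), fun j l => ?_, fun j l => ?_,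
    fun j c h => ?_, fun j => ?_⟩
  · have h0 := NN_zero hf j
    rw [GG, gf, (an_ev (gf_GS h0 hm _).2.1).2, coe_X, gs_de hm, ← alg_map, ← alg_map, ← tay_rt h0,
      ← tay_h h0]
    ring
  · have h1 : (PP (gen f) j l).natDegree ≤ gen f - 1 := by
      have : (1 + C ((j : ℕ) : ℚ) * X).natDegree ≤ 1 := by compute_degree
      have := natDegree_pow_le_of_le (l : ℕ) this
      have := natDegree_mul_le (p := (1 + C ((j : ℕ) : ℚ) * X) ^ (l : ℕ))
        (q := X ^ (gen f - 1 - l))
      rw [natDegree_X_pow] at this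
      unfold PP
      omega
    have h2 : f.natDegree ≤ (NN f j).natDegree := le_natDegree_of_ne_zero (by
      rw [NN, coeff_reverse, deg_shift, revAt_le le_rfl, Nat.sub_self, coeff_zero_eq_eval_zero]
      simpa [eval_comp] using hS j j.2)
    rw [natDegree_map, natDegree_map]
    unfold gen at *
    omega
  · have z : ∑ l : Fin (gen f), C (c l) * X ^ (l : ℕ) = 0 := by
      refine eq_zero_of_infinite_isRoot _ ((Set.finite_singleton ((j : ℕ) : ℂ)).infinite_compl.mono
        fun x hx => ?_)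
      have h0 : x - (j : ℕ) ≠ 0 := sub_ne_zero.2 hx
      have := congrArg (fun q => (x - (j : ℕ)) ^ (gen f - 1) * eval (x - (j : ℕ))⁻¹ q) h
      simp only [eval_finsetSum, eval_mul, eval_C, eval_map_algebraMap, PP_val, eval_zero,
        mul_zero, mul_sum] at this
      simp only [Set.mem_ofPred_eq, IsRoot, eval_finsetSum, eval_mul, eval_C, eval_pow, eval_X]
      rw [← this]
      refine sum_congr rfl fun l _ => ?_
      obtain ⟨e, he⟩ : ∃ e, gen f - 1 = l + e := ⟨gen f - 1 - l, by omega⟩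
      have : 1 + (j : ℕ) * (x - (j : ℕ))⁻¹ = x * (x - (j : ℕ))⁻¹ := by field_simp; ring
      rw [he, Nat.add_sub_cancel_left, this, mul_pow, pow_add, inv_pow, inv_pow]
      field_simp
    funext l
    have := congrArg (coeff · l) z
    simpa [finsetSum_coeff, coeff_X_pow, Fin.val_inj] using this
  · have h0 : f.map (algebraMap ℚ ℂ) ≠ 0 := (hf.map _).ne_zero
    obtain ⟨α, h1, h2⟩ := exists_max_image (f.map (algebraMap ℚ ℂ)).roots.toFinset Complex.re (by
      obtain ⟨α, h⟩ := IsAlgClosed.exists_root (f.map (algebraMap ℚ ℂ)) (by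
        rw [degree_map, degree_eq_natDegree hf.ne_zero]
        exact_mod_cast (by omega : f.natDegree ≠ 0))
      exact ⟨α, by simpa [h0, hf.ne_zero] using h⟩)
    simp only [Multiset.mem_toFinset, mem_roots h0, IsRoot, eval_map_algebraMap] at h1 h2 ⊢
    have h3 : α - (j : ℕ) ≠ 0 := fun e => hS j j.2 (by
      rw [sub_eq_zero.1 e, ← map_natCast (algebraMap ℚ ℂ), aeval_algebraMap_eq_zero_iff] at h1
      exact h1)
    refine ⟨(α - (j : ℕ))⁻¹, by simp [NN_val _ (inv_ne_zero h3), h1], fun j' hj e => ?_⟩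
    rw [NN_val _ (inv_ne_zero h3), mul_eq_zero_iff_left (pow_ne_zero _ (inv_ne_zero h3)),
      inv_inv] at e
    have := h2 _ e
    have h4 : ((j : ℕ) : ℝ) < (j' : ℕ) := by exact_mod_cast hj
    simp at this
    linarith

/-- the values of the multi-affine monomials are independent -/
theorem val_indep (hf : f.Monic) (hs : f.Separable) (hn : 3 ≤ f.natDegree) (S : Finset ℕ)
    (hS : ∀ j ∈ S, f.eval (j : ℚ) ≠ 0) : ∀ᶠ b : ℕ in atTop, LinearIndependent ℚ
      fun σ : S → Option (Fin (gen f)) =>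
        ∏ j, (σ j).elim 1 fun l => (GG f j l (b : ℂ)⁻¹).re := by
  have hm : 1 ≤ f.natDegree - 2 * gen f := by unfold gen; omega
  have e : ∀ j l, tay (GG f j l) = _ := fun j l => (an_ev (gf_GS (NN_zero hf j) hm _).2.1).2
  set u : S → Option (Fin (gen f)) → ℂ → ℂ := fun j o z => o.elim 1 fun l => GG f j l z with hu
  have a : ∀ j o, AnalyticAt ℂ (u j o) 0 := fun j o => by
    cases o
    · exact analyticAt_const
    · exact gf_an (NN_zero hf j) hm _
  have gsu : ∀ j o, GS (tay (u j o)) := fun j o => by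
    cases o
    · rw [show u j none = fun _ => 1 from rfl, tay_one]
      exact ⟨s_GC.2.2.2.1, s_GC.2.2.2.2.1, s_DFM.1⟩
    · exact (e _ _).symm ▸ gf_GS (NN_zero hf j) hm _
  have aP : ∀ σ : S → Option (Fin (gen f)), AnalyticAt ℂ (fun z => ∏ j, u j (σ j) z) 0 :=
    fun σ => Finset.analyticAt_fun_prod _ fun j _ => a j _
  have key := tGF (S → Option (Fin (gen f))) (fun σ => tay fun z => ∏ j, u j (σ j) z)
    (fun σ => ⟨?_, gr_tay (aP σ), ?_⟩) ?_
  · filter_upwards [key, tendsto_inv_nat.eventually (eventually_all.2 fun σ => ev_tay (aP σ))]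
      with b h1 h2
    refine LinearIndependent.of_comp (Complex.ofRealAm.toLinearMap.restrictScalars ℚ) ?_
    refine Eq.mp (congrArg (fun v : _ → ℂ => LinearIndependent ℚ v) (funext fun σ => ?_)) h1
    rw [h2, eq_comm]
    simp only [Function.comp_apply, LinearMap.coe_restrictScalars, AlgHom.toLinearMap_apply,
      Complex.ofRealAm_coe, Complex.ofReal_prod]
    refine prod_congr rfl fun j _ => ?_
    cases σ j
    · rfl
    · simpa [hu, GG, gf] using ev_real (gf_GS (NN_zero hf j) hm _).1 (b : ℝ)⁻¹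
  · rw [tay_prod _ fun j _ => a j _]
    exact prod_induction _ Den s_GC.2.2.1 s_GC.2.2.2.1 fun j _ => (gsu j _).1
  · rw [tay_prod _ fun j _ => a j _]
    exact prod_induction _ DF s_DFM.2 s_DFM.1 fun j _ => (gsu j _).2.2
  · have h1 : LinearIndependent ℚ[X] fun i : S → Ix (gen f) =>
        ∏ j : S, mm (tay (rt (NN f j))) (fun l => tay (GG f j l)) (i j) := by
      refine Fintype.linearIndependent_iff.2 fun q hq i => ?_
      simp only [Algebra.smul_def, alg_map] at hq
      simpa using congrFun ((dat hf hs hn S hS).indep _ hq) i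
    refine Eq.mp (congrArg (fun v : _ → ℂ⟦X⟧ => LinearIndependent ℚ[X] v) (funext fun σ => ?_))
      (h1.comp (fun σ j => (false, σ j)) fun σ σ' h => funext fun j =>
        congrArg Prod.snd (congrFun h j))
    rw [tay_prod _ fun j _ => a j _, eq_comm]
    refine prod_congr rfl fun j _ => ?_
    simp only [mm, cond_false, one_mul]
    cases σ j
    · exact tay_one
    · rfl

end Pool.Agent.P.MP_e5b57f_nt.HJ
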